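import Pool.Agent.J6H55.JM.GT

/-!
# Several maps over subfields
-/

set_option autoImplicit false

namespace Pool.Agent.J6H55.JM

open Polynomial
open Pool.Agent.Q41.SU (Stab)
open Pool.Agent.Q41.GT (crs)

section

variable {k k' K L : Type} [Field k] [Field k'] [Field K] [Field L] [Algebra k K] [Algebra K L]
  [Algebra k k'] [Algebra k' L] [Algebra k L] [IsScalarTower k K L] [IsScalarTower k k' L]

/-- elements algebraic over a subfield generated over `k` are algebraic over the subfield generated
over `k'` (compare `Pool.Agent.Q103.RP.alg_up`) -/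
theorem alg_up {S : Set K} {S' : Set L} (hS : ∀ c ∈ S, algebraMap K L c ∈ S') {z : K}
    (hz : IsAlgebraic (IntermediateField.adjoin k S) z) :
    IsAlgebraic (IntermediateField.adjoin k' S') (algebraMap K L z) := by
  set F' := IntermediateField.adjoin k' S' with hF'
  have hk : ∀ c : k, algebraMap K L (algebraMap k K c) ∈ F' := by
    intro c
    rw [← IsScalarTower.algebraMap_apply k K L, IsScalarTower.algebraMap_apply k k' L]
    exact F'.algebraMap_mem _
  let F0 : IntermediateField k K :=
    { F'.toSubfield.comap (algebraMap K L) with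
      algebraMap_mem' := fun c => hk c }
  have hle : IntermediateField.adjoin k S ≤ F0 := by
    rw [IntermediateField.adjoin_le_iff]
    intro c hc
    exact IntermediateField.subset_adjoin k' S' (hS c hc)
  let ψ : IntermediateField.adjoin k S →+* F' :=
    { toFun := fun c => ⟨algebraMap K L c, hle c.2⟩
      map_one' := by
        apply Subtype.ext
        exact map_one _
      map_mul' := fun a b => by
        apply Subtype.ext
        exact map_mul (algebraMap K L) _ _
      map_zero' := by
        apply Subtype.ext
        exact map_zero _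
      map_add' := fun a b => by
        apply Subtype.ext
        exact map_add (algebraMap K L) _ _ }
  exact hz.ringHom_of_comp_eq ψ (algebraMap K L) ψ.injective rfl

end

section

variable {K L : Type} [Field K] [Field L] [Algebra K L]

theorem crs_image [DecidableEq L] (P : Finset K) (c : K) (hc : c ∈ crs P) :
    algebraMap K L c ∈ crs (P.image (algebraMap K L)) := by
  obtain ⟨x0, h0, x1, h1, x2, h2, y, hy, n1, n2, n3, n4, n5, rfl⟩ := hc
  have hinj := (algebraMap K L).injective
  refine ⟨_, Finset.mem_image_of_mem _ h0, _, Finset.mem_image_of_mem _ h1, _,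
    Finset.mem_image_of_mem _ h2, _, Finset.mem_image_of_mem _ hy, hinj.ne n1, hinj.ne n2,
    hinj.ne n3, hinj.ne n4, hinj.ne n5, ?_⟩
  simp only [map_div₀, map_mul, map_sub]

theorem stab_image [DecidableEq L] {p q : K[X]} {P : Finset K} (h : Stab p q P) :
    Stab (p.map (algebraMap K L)) (q.map (algebraMap K L)) (P.image (algebraMap K L)) := by
  intro z hz
  obtain ⟨y, hy, rfl⟩ := Finset.mem_image.1 hz
  obtain ⟨h1, h2⟩ := h y hy
  rw [eval_map_algebraMap, eval_map_algebraMap, aeval_algebraMap_apply, aeval_algebraMap_apply]
  refine ⟨?_, ?_⟩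
  · intro h0
    exact h1 ((map_eq_zero _).1 h0)
  · rw [← map_div₀]
    exact Finset.mem_image_of_mem _ h2

end

/-- A finitely generated field `L` over `k` with a map over `L` of degree `d` and a stable set `P` such that `L`
is algebraic over the field generated by the cross ratios. -/
structure SDat (k : Type) {L : Type} [Field k] [Field L] [Algebra k L] (d : ℕ) (p q : L[X])
    (P : Finset L) : Prop where
  deg_p : p.natDegree ≤ d
  deg_q : q.natDegree = d
  coprime : IsCoprime p q
  stab : Stab p q P
  alg : Algebra.IsAlgebraic (IntermediateField.adjoin k (crs P)) L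
  fg : ∃ (m : ℕ) (u : Fin m → L), IntermediateField.adjoin k (Set.range u) = ⊤

theorem SDat.toDat {k L K : Type} [Field k] [Field L] [Algebra k L] [Field K] [Algebra k K]
    [Algebra L K] [IsScalarTower k L K] [DecidableEq K] {d : ℕ} {p q : L[X]} {P : Finset L}
    (h : SDat k d p q P) :
    Dat k d (p.map (algebraMap L K)) (q.map (algebraMap L K)) (P.image (algebraMap L K)) := by
  refine ⟨?_, ?_, h.coprime.map (mapRingHom (algebraMap L K)), stab_image h.stab, ?_⟩
  · rw [natDegree_map]
    exact h.deg_p
  · rw [natDegree_map]
    exact h.deg_q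
  · intro z hz
    obtain ⟨y, hy, rfl⟩ := Finset.mem_image.1 hz
    exact alg_up (k := k) (k' := k) (crs_image P) (h.alg.isAlgebraic y)

/-- the field generated by the cross ratios -/
theorem alg_crs {k K : Type} [Field k] [Field K] [Algebra k K] [DecidableEq K] {J : Type}
    {L : J → Type} [∀ f, Field (L f)] [∀ f, Algebra k (L f)] [∀ f, Algebra (L f) K]
    [∀ f, IsScalarTower k (L f) K] {d : J → ℕ} {p q : ∀ f, (L f)[X]} {P : ∀ f, Finset (L f)}
    (h : ∀ f, SDat k (d f) (p f) (q f) (P f))
    (halg : Algebra.IsAlgebraic (IntermediateField.adjoin k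
      (⋃ f, Set.range (algebraMap (L f) K))) K) :
    Algebra.IsAlgebraic (IntermediateField.adjoin k
      (⋃ f, crs ((P f).image (algebraMap (L f) K)))) K := by
  refine alg_trans (S := ⋃ f, Set.range (algebraMap (L f) K)) ?_ halg
  intro c hc
  obtain ⟨f, y, rfl⟩ := Set.mem_iUnion.1 hc
  exact alg_up (k := k) (k' := k)
    (fun c hc => Set.mem_iUnion.2 ⟨f, crs_image (P f) c hc⟩) ((h f).alg.isAlgebraic y)

end Pool.Agent.J6H55.JM
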