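import Pool.Agent.W602.GT.Der

/-!
# Algebraic elements and derivations
-/

set_option autoImplicit false

namespace Pool.Agent.J6H55.JM

open IntermediateField
open Pool.Agent.W602.GT

variable {k K : Type} [Field k] [Field K] [Algebra k K]

theorem elt_mono {L₁ L₂ : IntermediateField k K}
    (h : L₁ ≤ L₂) {a : K} (ha : IsAlgebraic L₁ a) : IsAlgebraic L₂ a := by
  obtain ⟨p, hp, hpa⟩ := ha
  refine ⟨p.map (IntermediateField.inclusion h).toRingHom, ?_, ?_⟩
  · rw [Ne, Polynomial.map_eq_zero]
    exact hp
  · rw [Polynomial.aeval_def, Polynomial.eval₂_map]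
    exact hpa

/-- transitivity -/
theorem elt_trans {S : Set K} {L : IntermediateField k K} (h : ∀ c ∈ S, IsAlgebraic L c) {y : K}
    (hy : IsAlgebraic (adjoin k S) y) : IsAlgebraic L y := by
  have hle : adjoin k S ≤ (algebraicClosure L K).restrictScalars k := by
    rw [adjoin_le_iff]
    intro c hc
    exact mem_algebraicClosure_iff.2 (h c hc)
  have h2 : IsAlgebraic ((algebraicClosure L K).restrictScalars k) y := elt_mono hle hy
  have h3 : IsAlgebraic (algebraicClosure L K) y := h2
  have : Algebra.IsAlgebraic L (algebraicClosure L K) := inferInstance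
  exact h3.restrictScalars L

theorem alg_trans {S : Set K} {L : IntermediateField k K} (h : ∀ c ∈ S, IsAlgebraic L c)
    (hK : Algebra.IsAlgebraic (adjoin k S) K) : Algebra.IsAlgebraic L K :=
  ⟨fun y => elt_trans h (hK.isAlgebraic y)⟩

/-- an element on which all derivations vanish is algebraic over the constants -/
theorem alg_of_der {k K : Type} [Field k] [CharZero k] [Field K] [Algebra k K] {y : K}
    (h : ∀ D : Derivation k K K, D y = 0) : IsAlgebraic k y := by
  classical
  by_contra hy
  have h1 : AlgebraicIndepOn k id ({y} : Set K) := by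
    have h2 : AlgebraicIndependent k (fun i : ({y} : Set K) => id (i : K)) :=
      (algebraicIndependent_singleton_iff (⟨y, rfl⟩ : ({y} : Set K))).2 hy
    exact h2
  obtain ⟨T, hT, hb⟩ := exists_isTranscendenceBasis_superset h1
  have hyT : y ∈ T := hT rfl
  obtain ⟨D, hD⟩ := exists_der (fun i : T => (i : K)) hb fun i => if i = ⟨y, hyT⟩ then 1 else 0
  have h3 := hD ⟨y, hyT⟩
  rw [if_pos rfl] at h3
  have h4 : D y = 1 := h3
  rw [h D] at h4
  exact zero_ne_one h4

/-- derivations over a field over which `K` is not algebraic -/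
theorem exists_der_over [CharZero k] (L : IntermediateField k K)
    (h : ¬ Algebra.IsAlgebraic L K) : ∃ D : Derivation k K K, D ≠ 0 ∧ ∀ y ∈ L, D y = 0 := by
  have hL : CharZero L := charZero_of_injective_algebraMap (algebraMap k L).injective
  by_contra hc
  push Not at hc
  apply h
  refine ⟨fun y => alg_of_der fun D => ?_⟩
  by_contra hD
  obtain ⟨z, hz, hz'⟩ := hc (D.restrictScalars k) (by
    intro h0
    apply hD
    have h1 := congrArg (fun D' : Derivation k K K => D' y) h0
    exact h1)
  apply hz'
  have h1 : D (algebraMap L K ⟨z, hz⟩) = 0 := D.map_algebraMap _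
  exact h1

end Pool.Agent.J6H55.JM
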