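import Pool.Agent.J6H55.JM.Var
import Pool.Agent.Q209.GT.Sub
import Pool.Agent.Q41.GT.Ah

/-!
# Varieties carrying several maps with stable sets: degrees of curves
-/

set_option autoImplicit false

namespace Pool.Agent.J6H55.JM

open Polynomial FF
open Pool.Agent.Q41.SU (Stab)
open Pool.Agent.Q41.GT (crs c_cvh)
open Pool.Agent.W602.GT (coords val IsForm GeneralType)
open Pool.Agent.Y216 (OnVar CurveBound)
open Pool.Agent.W603.LV (hgt canDeg hgt_root hgt_mvpoly)
open Pool.Agent.W603.PV (pht pht_le)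

theorem crv_joint : ∃ B : ℕ → ℕ, ∀ (k K : Type) [Field k] [IsAlgClosed k] [CharZero k] [Field K]
    [Algebra k K] (M : ℕ) (x : Fin (M + 1) → K), x ≠ 0 → coords k x = ⊤ →
    ∀ (J : Type) [Fintype J] (d : J → ℕ)
    (p q : J → K[X]) (P : J → Finset K), (∀ f, 2 ≤ d f) →
    (∀ f, Dat k (d f) (p f) (q f) (P f)) → (∀ f, B (d f) ≤ (P f).card) →
    Algebra.IsAlgebraic (IntermediateField.adjoin k (⋃ f, crs (P f))) K →
    CurveBound k x := by
  classical
  choose B hB using c_cvh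
  refine ⟨fun d => if h : 2 ≤ d then B d h else 0, ?_⟩
  intro k K _ _ _ _ _ M x hx hgen J _ d p q P hd hdat hcard halg
  have hC0 : ∀ f : J, ∃ C : ℕ, ∀ (k L : Type) [Field k] [IsAlgClosed k]
      [CharZero k] [Field L] [Algebra k L] [IsFF k L] (p q : L[X]), p.natDegree ≤ d f →
      q.natDegree = d f → IsCoprime p q → ∀ P' : Finset L, Stab p q P' → P'.card = (P f).card →
      ∀ c ∈ crs P', hgt k c ≤ C * max (canDeg k L) 0 := by
    intro f
    have h1 : (if h : 2 ≤ d f then B (d f) h else 0) ≤ (P f).card := hcard f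
    rw [dif_pos (hd f)] at h1
    exact hB (d f) (hd f) (P f).card h1
  choose C1 hC1 using hC0
  obtain ⟨C, hCdef⟩ : ∃ C : ℕ, C = ∑ f, C1 f := ⟨_, rfl⟩
  have hC1le : ∀ f, C1 f ≤ C := fun f => by
    rw [hCdef]
    exact Finset.single_le_sum (f := C1) (fun _ _ => Nat.zero_le _) (Finset.mem_univ f)
  obtain ⟨i1, G, D, g, hG, hxG, hmain⟩ := var_joint' hx hgen
    (fun f => le_trans (by omega) (hd f)) hdat halg
  have hfin : (⋃ f, crs (P f) : Set K).Finite :=
    Set.finite_iUnion fun f => Pool.Agent.Q209.GT.crs_finite (P f)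
  have : Fintype (⋃ f, crs (P f) : Set K) := hfin.fintype
  obtain ⟨A, hA⟩ : ∃ A : ℕ, A = ∑ i, ∑ j ∈ Finset.range (D i + 1),
    (g i j).totalDegree * (Fintype.card (⋃ f, crs (P f) : Set K) * C) := ⟨_, rfl⟩
  refine ⟨G, hG, hxG, A, ?_⟩
  intro L _ _ _ f hf hfG
  obtain ⟨hf1, p', q', P', c', hdat', hcard', hcr, -, hrel⟩ := hmain L f hf.2 hfG
  set χ : ℤ := max (canDeg k L) 0 with hχ
  have hχ0 : 0 ≤ χ := le_max_right _ _
  have h1 : ∀ c, hgt k (c' c) ≤ C * χ := by
    intro c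
    obtain ⟨j, hj⟩ := hcr c
    refine (hC1 j k L (p' j) (q' j) (hdat' j).deg_p (hdat' j).deg_q (hdat' j).coprime (P' j)
      (hdat' j).stab (hcard' j) _ hj).trans ?_
    have h2 : (C1 j : ℤ) ≤ (C : ℤ) := by exact_mod_cast hC1le j
    exact mul_le_mul_of_nonneg_right h2 hχ0
  have h2 : ∀ i j, hgt k (MvPolynomial.aeval c' (g i j)) ≤
      ((g i j).totalDegree * (Fintype.card (⋃ f, crs (P f) : Set K) * C) : ℕ) * χ := by
    intro i j
    refine (hgt_mvpoly (k := k) c' (g i j)).trans ?_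
    have h3 : ∑ c, hgt k (c' c) ≤
        ((Fintype.card (⋃ f, crs (P f) : Set K) : ℕ) : ℤ) * (C * χ) := by
      refine (Finset.sum_le_sum fun c _ => h1 c).trans (le_of_eq ?_)
      rw [Finset.sum_const, Finset.card_univ, nsmul_eq_mul]
    refine (mul_le_mul_of_nonneg_left h3 (Nat.cast_nonneg (α := ℤ) (g i j).totalDegree)).trans
      (le_of_eq ?_)
    push_cast
    ring
  have h4 : ∀ i, hgt k (f i / f i1) ≤ (∑ j ∈ Finset.range (D i + 1),
      (g i j).totalDegree * (Fintype.card (⋃ f, crs (P f) : Set K) * C) : ℕ) * χ := by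
    intro i
    refine (hgt_root (k := k) (fun j => MvPolynomial.aeval c' (g i j)) (hrel i).1 _
      (hrel i).2).trans ?_
    rw [add_comm, ← Finset.sum_range_succ (fun j => hgt k (MvPolynomial.aeval c' (g i j)))]
    refine (Finset.sum_le_sum fun j _ => h2 i j).trans (le_of_eq ?_)
    rw [← Finset.sum_mul]
    push_cast
    rfl
  refine (pht_le (k := k) f hf1).trans ((Finset.sum_le_sum fun j _ => h4 j).trans (le_of_eq ?_))
  rw [← Finset.sum_mul, hA]
  push_cast
  rfl

end Pool.Agent.J6H55.JM
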