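import Pool.Agent.Q41.GT.All
import Pool.Agent.Q224.EC.Crp
import Pool.Agent.Q53.EC.Var

/-!
# The data of one map with a large stable set, relative form

The theorem `Pool.Agent.Q92.GT.t_H7` without the assumption that `K` is algebraic over the field of the
cross ratios.
-/

set_option autoImplicit false

namespace Pool.Agent.J6H55.JM

open Finset Polynomial FF
open Pool.Agent.W602.GT
open Pool.Agent.W603.LV (Ge)
open Pool.Agent.Q41.SU
open Pool.Agent.Q41.GT
open Pool.Agent.Q149.GT (im mem_im im_card stab_im sur_im crs_im crs_const der_zero_of_alg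
  isAlgClosed_consts)
open Pool.Agent.Q92.GT (der_expand map_wro wro_hom crs_finite der_sum)

/-- a derivation which vanishes on `S` vanishes on the elements which are algebraic over the field
generated by `S` -/
theorem der_kill {k K E : Type} [Field k] [CharZero k] [Field K] [Algebra k K] [Field E]
    [Algebra K E] [Algebra k E] [IsScalarTower k K E] (D : Derivation k E E) {S : Set K}
    (hS : ∀ s ∈ S, D (algebraMap K E s) = 0) {c : K}
    (hc : IsAlgebraic (IntermediateField.adjoin k S) c) : D (algebraMap K E c) = 0 := by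
  let f : K →+* E := algebraMap K E
  let A : IntermediateField k K := (consts D).comap (IsScalarTower.toAlgHom k K E)
  have hA : S ⊆ (A : Set K) := fun s hs => hS s hs
  have hle : IntermediateField.adjoin k S ≤ A := IntermediateField.adjoin_le_iff.2 hA
  let g : IntermediateField.adjoin k S →+* consts D :=
    { toFun := fun y => ⟨f y, hle y.2⟩
      map_one' := Subtype.ext (map_one f)
      map_mul' := fun y z => Subtype.ext (map_mul f _ _)
      map_zero' := Subtype.ext (map_zero f)
      map_add' := fun y z => Subtype.ext (map_add f _ _) }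
  apply der_zero_of_alg D
  obtain ⟨r, hr0, hr⟩ := hc
  refine ⟨r.map g, (Polynomial.map_ne_zero_iff g.injective).2 hr0, ?_⟩
  have h1 : f (aeval c r) = aeval (f c) (r.map g) := by
    rw [aeval_def, aeval_def, eval₂_map, hom_eval₂]
    rfl
  rw [← h1, hr, map_zero]

/-- nondegeneracy for derivations which do not vanish on the cross ratios -/
theorem ndw_one (d a b : ℕ) (φ : II a b → ℕ × ℕ) (hd : 2 ≤ d) (hφ : Cols a b φ) : ∃ N₀ : ℕ,
    ∀ (k K E : Type) [Field k] [CharZero k] [Field K] [Algebra k K] [Field E] [IsAlgClosed E]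
    [Algebra K E] [Algebra k E] [IsScalarTower k K E] (p q : K[X]), p.natDegree ≤ d →
    q.natDegree = d → IsCoprime p q → ∀ P : Finset K, Stab p q P → Sur p q P → N₀ ≤ P.card →
    ∀ D : Derivation k E E, (∃ c ∈ crs P, D (algebraMap K E c) ≠ 0) →
    ∃ x : II a b → K, Function.Injective x ∧ (∀ l, x l ∈ P) ∧
      wro φ (fun l => algebraMap K E (x l)) (fun l => D (algebraMap K E (x l))) ≠ 0 := by
  classical
  have hcrc := Pool.Agent.Q144.SU.crc.{0}
  obtain ⟨N₀, hN₀⟩ := a_ndr d a b φ hφ
  refine ⟨N₀, ?_⟩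
  intro k K E _ _ _ _ _ _ _ _ _ p q hp hq hco P hP hS hcard D hD
  have hC := isAlgClosed_consts D
  have hchar : CharZero (consts D) := charZero_of_injective_algebraMap
    (algebraMap k (consts D)).injective
  let f : K →+* E := algebraMap K E
  have hpE : (p.map f).natDegree ≤ d := by rw [natDegree_map]; exact hp
  have hqE : (q.map f).natDegree = d := by rw [natDegree_map]; exact hq
  have hcoE : IsCoprime (p.map f) (q.map f) := hco.map (mapRingHom f)
  have hnd : NDH (consts D) (overConsts D) d (p.map f) (q.map f) (im f P) := by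
    refine ⟨fun x hx => ⟨⟨x, hx⟩, rfl⟩, hd, hpE, hqE, hcoE, stab_im f hP, sur_im f hS, ?_⟩
    intro hconj
    obtain ⟨c, hc, hDc⟩ := hD
    apply hDc
    obtain ⟨s, hs⟩ := crs_const hcrc hd hpE hqE hcoE hconj (stab_im f hP) (crs_im f hc)
    change f c ∈ consts D
    rw [← hs]
    exact s.2
  obtain ⟨x, hx1, hx2, hx3⟩ := hN₀ (consts D) E (overConsts D) (p.map f) (q.map f) (im f P) hnd
    (by rw [im_card]; exact hcard)
  have h1 : ∀ l, ∃ z ∈ P, f z = x l := fun l => (mem_im f).1 (hx2 l)
  choose z hz1 hz2 using h1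
  refine ⟨z, fun l l' hll' => hx1 ?_, hz1, ?_⟩
  · rw [← hz2 l, ← hz2 l', hll']
  · have e1 : (fun l => algebraMap K E (z l)) = x := funext hz2
    have e2 : (fun l => D (algebraMap K E (z l))) = fun l => overConsts D (x l) := by
      funext l
      rw [overConsts_apply, ← hz2 l]
    rw [e1, e2]
    exact hx3

theorem data1 (d : ℕ) (hd : 2 ≤ d) : ∃ B : ℕ, ∀ (k K : Type) [Field k] [CharZero k] [Field K]
    [Algebra k K] (p q : K[X]), p.natDegree ≤ d → q.natDegree = d → IsCoprime p q →
    ∀ P : Finset K, Stab p q P → B ≤ P.card →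
    ∃ (ι : Type) (_ : Fintype ι) (F : ι → Derivation k K K → K) (C C' : ℕ)
      (R : Place k K → ℕ) (H : Finset K), 1 ≤ C ∧
      (∀ c ∈ crs P, IsAlgebraic (IntermediateField.adjoin k (H : Set K)) c) ∧
      (∀ v, ∀ h ∈ H, Ge v (-((C' : ℤ) * R v)) h) ∧
      (∀ v D, DerReg v D → ∀ i, Ge v (R v) (F i D)) ∧
      (∀ i (D D₀ : Derivation k K K) (c : K), (∀ z ∈ P, D₀ z = 0) → F i (D + c • D₀) = F i D) ∧
      ∀ (w : ℕ) (t : Fin w → K), IsTranscendenceBasis k t →
        ∃ Q : ι → MvPolynomial (Fin w) K, (∀ i, (Q i).IsHomogeneous C) ∧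
          (∀ i D, F i D = MvPolynomial.eval (fun j => D (t j)) (Q i)) ∧
          ∀ D : Derivation k (AlgebraicClosure K) (AlgebraicClosure K),
            (∃ c ∈ crs P, D (algebraMap K (AlgebraicClosure K) c) ≠ 0) →
            ∃ i, MvPolynomial.aeval (fun j => D (algebraMap K (AlgebraicClosure K) (t j)))
              (Q i) ≠ 0 := by
  classical
  obtain ⟨a, b, φ, hb, hba, ha2, hφ, hcst, hO⟩ := a_ords d hd
  obtain ⟨N₀, hN₀⟩ := ndw_one d a b φ hd hφ
  obtain ⟨N'', hN''⟩ := Pool.Agent.Q24.SU.t_red.{0} d (max N₀ (3 * d + 4)) (by omega)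
  refine ⟨N'', ?_⟩
  intro k K _ _ _ _ p q hp hq hpq P hP hcard
  have hcrp := Pool.Agent.Q224.EC.t_crp Pool.Agent.Q144.SU.crc.{0}
  obtain ⟨P', hP'P, hP', hcard', hsur⟩ := hN'' K p q hp hq hpq P hP hcard
  have halgc : ∀ c ∈ crs P, IsAlgebraic (IntermediateField.adjoin k (crs P')) c :=
    hcrp k K d p q hd hp hq hpq P P' hP'P hP hP' ((le_max_right _ _).trans hcard')
  obtain ⟨E₀, C', hE₀, hO⟩ := hO P'.card
  obtain ⟨α, R, hα, hPhi, 𝒢, h𝒢, hGe⟩ := hO k K p q hp hq hpq P' hP' rfl
  set e1 := 2 * ((a + 1) * (b + 1) - 1) * b * (E₀ * (d * (d - 1))) with he1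
  have he1pos : 1 ≤ e1 := by
    have h1 : 1 ≤ (a + 1) * (b + 1) - 1 := by
      have : 2 * 2 ≤ (a + 1) * (b + 1) := Nat.mul_le_mul (by omega) (by omega)
      omega
    have h2 : 1 ≤ d * (d - 1) := by
      have : 1 * 1 ≤ d * (d - 1) := Nat.mul_le_mul (by omega) (by omega)
      omega
    rw [he1]
    exact Nat.mul_pos (Nat.mul_pos (Nat.mul_pos two_pos h1) hb) (Nat.mul_pos hE₀ h2)
  let HS : Set K := insert 𝒢 ((fun c => c * 𝒢) '' crs P')
  have hHS : HS.Finite := ((crs_finite P').image _).insert _
  have hle : IntermediateField.adjoin k (crs P') ≤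
      IntermediateField.adjoin k ((hHS.toFinset : Finset K) : Set K) := by
    rw [IntermediateField.adjoin_le_iff]
    intro c hc
    rw [Set.Finite.coe_toFinset]
    have h1 : 𝒢 ∈ IntermediateField.adjoin k HS :=
      IntermediateField.subset_adjoin _ _ (Set.mem_insert _ _)
    have h2 : c * 𝒢 ∈ IntermediateField.adjoin k HS :=
      IntermediateField.subset_adjoin _ _ (Set.mem_insert_of_mem _ ⟨c, hc, rfl⟩)
    have h3 := div_mem h2 h1
    rw [mul_div_cancel_right₀ _ h𝒢] at h3
    exact h3
  let ι : Type := {x : II a b → P' // Function.Injective x}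
  refine ⟨ι, Fintype.ofFinite _, fun x D => Phi φ E₀ d α p q (fun l => ((x.1 l : P') : K)) D,
    e1 * cst φ, C', R, hHS.toFinset, ?_, fun c hc => Pool.Agent.Q53.EC.alg_mono hle (halgc c hc),
    ?_, ?_, ?_, ?_⟩
  · exact Nat.mul_pos he1pos hcst
  · intro v h hh
    rw [Set.Finite.mem_toFinset] at hh
    rcases hh with rfl | ⟨c, hc, rfl⟩
    · exact (hGe v).1
    · exact (hGe v).2 c hc
  · intro v D hD x
    refine hPhi v D hD _ ?_ fun l => (x.1 l).2
    intro l m h
    exact x.2 (Subtype.ext h)
  · intro x D D₀ c hD₀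
    have h1 : (fun l => (D + c • D₀) ((x.1 l : P') : K)) = fun l => D ((x.1 l : P') : K) := by
      funext l
      rw [Derivation.add_apply, Derivation.smul_apply, hD₀ _ (hP'P (x.1 l).2), smul_zero, add_zero]
    show Phi φ E₀ d α p q (fun l => ((x.1 l : P') : K)) (D + c • D₀) =
      Phi φ E₀ d α p q (fun l => ((x.1 l : P') : K)) D
    unfold Phi
    rw [h1]
  · intro w t ht
    obtain ⟨δ, hδ⟩ := exists_dual ht
    let Y : ι → II a b → MvPolynomial (Fin w) K := fun x l =>
      ∑ j, MvPolynomial.C (δ j ((x.1 l : P') : K)) * MvPolynomial.X j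
    let cc : ι → K := fun x => pprod (gfn E₀ d α p q) (fun l => ((x.1 l : P') : K)) ^
      (4 * ((a + 1) * (b + 1) - 1)) / pprod (fun z z' => z - z') (fun l => ((x.1 l : P') : K)) ^
        ((a + b) * b * (E₀ * (d * (d - 1))))
    refine ⟨fun x => wro φ (fun l => MvPolynomial.C ((x.1 l : P') : K)) (Y x) ^ e1 *
      MvPolynomial.C (cc x), fun x => ?_, fun x D => ?_, fun D hD => ?_⟩
    · have h1 := wro_hom φ (fun l => ((x.1 l : P') : K)) (Y x) (fun l => by
        refine MvPolynomial.IsHomogeneous.sum _ _ _ fun j _ => ?_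
        have h3 := (MvPolynomial.isHomogeneous_C (Fin w) (δ j ((x.1 l : P') : K))).mul
          (MvPolynomial.isHomogeneous_X K j)
        rwa [zero_add] at h3)
      have h2 := (h1.pow e1).mul (MvPolynomial.isHomogeneous_C (Fin w) (cc x))
      rw [add_zero, mul_comm (cst φ)] at h2
      exact h2
    · rw [map_mul, map_pow, MvPolynomial.eval_C, map_wro]
      have h1 : (fun l => MvPolynomial.eval (fun j => D (t j))
          (MvPolynomial.C (σ := Fin w) ((x.1 l : P') : K))) = fun l => ((x.1 l : P') : K) := by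
        funext l
        rw [MvPolynomial.eval_C]
      have h2 : (fun l => MvPolynomial.eval (fun j => D (t j)) (Y x l)) =
          fun l => D ((x.1 l : P') : K) := by
        funext l
        have h3 := der_expand ht hδ D ((x.1 l : P') : K)
        simp only [Algebra.algebraMap_self, RingHom.id_apply] at h3
        rw [h3]
        show MvPolynomial.eval _ (∑ j, _) = _
        rw [map_sum]
        refine Finset.sum_congr rfl fun j _ => ?_
        rw [map_mul, MvPolynomial.eval_C, MvPolynomial.eval_X, mul_comm]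
      rw [h1, h2]
      show Phi φ E₀ d α p q (fun l => ((x.1 l : P') : K)) D = _
      unfold Phi
      rw [mul_div_assoc]
    · -- no common zero
      have hD2 : ∃ c ∈ crs P', D (algebraMap K (AlgebraicClosure K) c) ≠ 0 := by
        by_contra hc
        push Not at hc
        obtain ⟨c, hcP, hDc⟩ := hD
        exact hDc (der_kill D hc (halgc c hcP))
      obtain ⟨x, hx1, hx2, hx3⟩ := hN₀ k K (AlgebraicClosure K) p q hp hq hpq P' hP' hsur
        ((le_max_left _ _).trans hcard') D hD2
      let xι : ι := ⟨fun l => ⟨x l, hx2 l⟩, fun l m h => hx1 (congrArg Subtype.val h)⟩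
      refine ⟨xι, ?_⟩
      set lam : Fin w → AlgebraicClosure K :=
        fun j => D (algebraMap K (AlgebraicClosure K) (t j)) with hlam
      show MvPolynomial.aeval lam (wro φ (fun l => MvPolynomial.C (x l)) (Y xι) ^ e1 *
        MvPolynomial.C (cc xι)) ≠ 0
      rw [map_mul, map_pow, MvPolynomial.aeval_C]
      refine mul_ne_zero (pow_ne_zero _ ?_) ?_
      · have h1 := map_wro ((MvPolynomial.aeval lam :
          MvPolynomial (Fin w) K →ₐ[K] AlgebraicClosure K) :
          MvPolynomial (Fin w) K →+* AlgebraicClosure K) φ (fun l => MvPolynomial.C (x l)) (Y xι)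
        have h2 : (fun l => ((MvPolynomial.aeval lam :
          MvPolynomial (Fin w) K →ₐ[K] AlgebraicClosure K) :
          MvPolynomial (Fin w) K →+* AlgebraicClosure K) (MvPolynomial.C (x l))) =
            fun l => algebraMap K (AlgebraicClosure K) (x l) := by
          funext l
          exact MvPolynomial.aeval_C _ _
        have h3 : (fun l => ((MvPolynomial.aeval lam :
          MvPolynomial (Fin w) K →ₐ[K] AlgebraicClosure K) :
          MvPolynomial (Fin w) K →+* AlgebraicClosure K) (Y xι l)) =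
            fun l => D (algebraMap K (AlgebraicClosure K) (x l)) := by
          funext l
          rw [der_expand ht hδ D (x l)]
          show MvPolynomial.aeval lam (∑ j, MvPolynomial.C (δ j (x l)) * MvPolynomial.X j) = _
          rw [map_sum]
          refine Finset.sum_congr rfl fun j _ => ?_
          rw [map_mul, MvPolynomial.aeval_C, MvPolynomial.aeval_X, mul_comm]
        rw [h2, h3] at h1
        intro h0
        apply hx3
        rw [← h1]
        exact h0
      · rw [map_ne_zero_iff _ (algebraMap K (AlgebraicClosure K)).injective]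
        have hg : ∀ (g : K → K → K), (∀ z ∈ P', ∀ z' ∈ P', z ≠ z' → g z z' ≠ 0) →
            pprod g x ≠ 0 := by
          intro g hg
          unfold pprod
          refine Finset.prod_ne_zero_iff.2 fun l _ => Finset.prod_ne_zero_iff.2 fun m hm => ?_
          exact hg _ (hx2 l) _ (hx2 m) fun h => (Finset.ne_of_mem_erase hm) (hx1 h).symm
        refine div_ne_zero (pow_ne_zero _ (hg _ ?_)) (pow_ne_zero _ (hg _ ?_))
        · intro z _ z' _ hzz
          unfold gfn
          refine div_ne_zero (mul_ne_zero (pow_ne_zero _ (sub_ne_zero.2 hzz)) (pow_ne_zero _ ?_))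
            (pow_ne_zero _ (mul_ne_zero (hα z) (hα z')))
          exact Pool.Agent.W277.UH.res_ne d p q hp hq (by omega) hpq
        · intro z _ z' _ hzz
          exact sub_ne_zero.2 hzz

end Pool.Agent.J6H55.JM
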