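import Pool.Agent.J6H55.JM.K4j
import Pool.Agent.J6H55.JM.Data
import Pool.Agent.J6H55.JM.AlgAux

/-!
# Varieties which carry several maps with many preperiodic points are of general type

`K` is the function field of a variety, `p f / q f` are rational maps over `K`, each with a large stable
set `P f`, such that `K` is algebraic over the field generated by the cross ratios of all the `P f`.
-/

set_option autoImplicit false

namespace Pool.Agent.J6H55.JM

open Finset Polynomial FF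
open Pool.Agent.W602.GT
open Pool.Agent.W603.LV (Ge)
open Pool.Agent.Q41.SU
open Pool.Agent.Q41.GT

/-- A map `p / q` of degree `d` over `K` with the stable set `P`; the points of `P` are algebraic over
the field generated by their cross ratios. -/
structure Dat (k : Type) {K : Type} [Field k] [Field K] [Algebra k K] (d : ℕ) (p q : K[X])
    (P : Finset K) : Prop where
  deg_p : p.natDegree ≤ d
  deg_q : q.natDegree = d
  coprime : IsCoprime p q
  stab : Stab p q P
  alg : ∀ z ∈ P, IsAlgebraic (IntermediateField.adjoin k (crs P)) z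

theorem gt_joint : ∃ B : ℕ → ℕ, ∀ (k K : Type) [Field k] [CharZero k] [Field K] [Algebra k K]
    (w : ℕ), 1 ≤ w → Algebra.trdeg k K = w → ∀ (J : Type) [Fintype J] (d : J → ℕ)
    (p q : J → K[X]) (P : J → Finset K), (∀ f, 2 ≤ d f) → (∀ f, Dat k (d f) (p f) (q f) (P f)) →
    (∀ f, B (d f) ≤ (P f).card) →
    Algebra.IsAlgebraic (IntermediateField.adjoin k (⋃ f, crs (P f))) K →
    GeneralType k K w := by
  classical
  choose B hB using data1
  refine ⟨fun d => if h : 2 ≤ d then B d h else 0, ?_⟩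
  intro k K _ _ _ _ w hw htr J _ d p q P hd hdat hcard halg
  -- a minimal family
  let As : Set (Finset J) := {T | Algebra.IsAlgebraic
    (IntermediateField.adjoin k (⋃ f ∈ T, crs (P f))) K}
  have hAs : As.Nonempty := ⟨Finset.univ, by
    show Algebra.IsAlgebraic (IntermediateField.adjoin k
      (⋃ f ∈ (Finset.univ : Finset J), crs (P f))) K
    have h1 : (⋃ f ∈ (Finset.univ : Finset J), crs (P f)) = ⋃ f, crs (P f) := by simp
    rw [h1]
    exact halg⟩
  obtain ⟨T, hT, hmin⟩ := (wellFounded_lt (α := Finset J)).has_min As hAs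
  have hT : Algebra.IsAlgebraic (IntermediateField.adjoin k (⋃ f ∈ T, crs (P f))) K := hT
  have hD0 : ∀ f ∈ T, ∃ D₀ : Derivation k K K, D₀ ≠ 0 ∧ ∀ g ∈ T, g ≠ f → ∀ z ∈ P g,
      D₀ z = 0 := by
    intro f hf
    have h1 : ¬ Algebra.IsAlgebraic
        (IntermediateField.adjoin k (⋃ g ∈ T.erase f, crs (P g))) K := fun h =>
      hmin (T.erase f) h (Finset.erase_ssubset hf)
    obtain ⟨D, hD, hD'⟩ := exists_der_over _ h1
    refine ⟨D, hD, fun g hg hgf z hz => ?_⟩
    have h2 : ∀ s ∈ crs (P g), D (algebraMap K K s) = 0 := by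
      intro s hs
      apply hD'
      apply IntermediateField.subset_adjoin
      exact Set.mem_biUnion (Finset.mem_erase.2 ⟨hgf, hg⟩) hs
    exact der_kill D h2 ((hdat g).alg z hz)
  -- the data
  have hdata : ∀ f : J, ∃ (ι : Type) (_ : Fintype ι) (F : ι → Derivation k K K → K) (C C' : ℕ)
      (R : Place k K → ℕ) (H : Finset K), 1 ≤ C ∧
      (∀ c ∈ crs (P f), IsAlgebraic (IntermediateField.adjoin k (H : Set K)) c) ∧
      (∀ v, ∀ h ∈ H, Ge v (-((C' : ℤ) * R v)) h) ∧
      (∀ v D, DerReg v D → ∀ i, Ge v (R v) (F i D)) ∧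
      (∀ i (D D₀ : Derivation k K K) (c : K), (∀ z ∈ P f, D₀ z = 0) →
        F i (D + c • D₀) = F i D) ∧
      ∀ (w : ℕ) (t : Fin w → K), IsTranscendenceBasis k t →
        ∃ Q : ι → MvPolynomial (Fin w) K, (∀ i, (Q i).IsHomogeneous C) ∧
          (∀ i D, F i D = MvPolynomial.eval (fun j => D (t j)) (Q i)) ∧
          ∀ D : Derivation k (AlgebraicClosure K) (AlgebraicClosure K),
            (∃ c ∈ crs (P f), D (algebraMap K (AlgebraicClosure K) c) ≠ 0) →
            ∃ i, MvPolynomial.aeval (fun j => D (algebraMap K (AlgebraicClosure K) (t j)))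
              (Q i) ≠ 0 := by
    intro f
    have h1 : (if h : 2 ≤ d f then B (d f) h else 0) ≤ (P f).card := hcard f
    rw [dif_pos (hd f)] at h1
    exact hB (d f) (hd f) k K (p f) (q f) (hdat f).deg_p (hdat f).deg_q (hdat f).coprime (P f)
      (hdat f).stab h1
  choose ι iι F C C' R H hC hcrs hH hF hinv hQ using hdata
  let Ct : ℕ := ∏ f ∈ T, C f
  let e : J → ℕ := fun f => ∏ g ∈ T.erase f, C g
  have he : ∀ f ∈ T, C f * e f = Ct := fun f hf => Finset.mul_prod_erase T C hf
  have he1 : ∀ f, 1 ≤ e f := fun f => Nat.succ_le_of_lt (Finset.prod_pos fun g _ => hC g)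
  have hCt : 1 ≤ Ct := Nat.succ_le_of_lt (Finset.prod_pos fun g _ => hC g)
  refine gtf_joint Pool.Agent.Q223.GT.t_nul Pool.Agent.Q223.GT.t_sym Pool.Agent.Q166.GT.Cof.t_cof
    k K w hw htr T (Σ f : T, ι f) (fun i => i.1) (fun i D => F i.1 i.2 D ^ e i.1) Ct
    (∑ f ∈ T, C' f) (fun f => R f) (T.biUnion H) hCt ?_ ?_ ?_ ?_ ?_
  · refine alg_trans (S := ⋃ f ∈ T, crs (P f)) ?_ hT
    intro c hc
    rw [Set.mem_iUnion₂] at hc
    obtain ⟨f, hf, hcf⟩ := hc
    refine elt_mono ?_ (hcrs f c hcf)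
    refine IntermediateField.adjoin.mono _ _ _ ?_
    intro h hh
    exact Finset.mem_coe.2 (Finset.mem_biUnion.2 ⟨f, hf, Finset.mem_coe.1 hh⟩)
  · intro v h hh
    obtain ⟨f, hf, hhf⟩ := Finset.mem_biUnion.1 hh
    refine (hH f v h hhf).mono ?_
    have h1 : (C' f : ℤ) ≤ ((∑ f ∈ T, C' f : ℕ) : ℤ) := by
      exact_mod_cast Finset.single_le_sum (f := C') (fun _ _ => Nat.zero_le _) hf
    have h2 : (R f v : ℤ) ≤ ∑ g : T, (R g v : ℤ) :=
      Finset.single_le_sum (f := fun g : T => (R g v : ℤ)) (fun _ _ => Int.natCast_nonneg _)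
        (Finset.mem_univ (⟨f, hf⟩ : T))
    have h3 := mul_le_mul h1 h2 (Int.natCast_nonneg _) (Int.natCast_nonneg _)
    linarith
  · intro v D hD i
    have h1 := (hF i.1 v D hD i.2).pow (e i.1)
    refine h1.mono ?_
    have h2 : (1 : ℤ) ≤ (e i.1 : ℤ) := by exact_mod_cast he1 _
    have h3 : (0 : ℤ) ≤ (R i.1 v : ℤ) := Int.natCast_nonneg _
    nlinarith
  · intro f
    obtain ⟨D₀, h1, h2⟩ := hD0 f f.2
    refine ⟨D₀, h1, fun i hi c D => ?_⟩
    show F i.1 i.2 (D + c • D₀) ^ e i.1 = F i.1 i.2 D ^ e i.1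
    rw [hinv i.1 i.2 D D₀ c fun z hz => h2 i.1 i.1.2 (fun h => hi (Subtype.ext h)) z hz]
  · intro t ht
    choose Q hQ1 hQ2 hQ3 using fun f => hQ f w t ht
    refine ⟨fun i => Q i.1 i.2 ^ e i.1, fun i => ?_, fun i D => ?_, fun lam hlam => ?_⟩
    · have h1 := (hQ1 i.1 i.2).pow (e i.1)
      rw [he i.1 i.1.2] at h1
      exact h1
    · show F i.1 i.2 D ^ e i.1 = _
      rw [hQ2, map_pow]
    · have htE : IsTranscendenceBasis k (algebraMap K (AlgebraicClosure K) ∘ t) :=
        ht.algebraMap_comp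
      obtain ⟨D, hD⟩ := exists_der (algebraMap K (AlgebraicClosure K) ∘ t) htE lam
      have hD' : ∀ j, D (algebraMap K (AlgebraicClosure K) (t j)) = lam j := hD
      obtain ⟨j₀, hj₀⟩ := Function.ne_iff.1 hlam
      have h1 : ∃ f ∈ T, ∃ c ∈ crs (P f), D (algebraMap K (AlgebraicClosure K) c) ≠ 0 := by
        by_contra hc
        push Not at hc
        apply hj₀
        rw [← hD']
        refine der_kill D (S := ⋃ f ∈ T, crs (P f)) ?_ (hT.isAlgebraic _)
        intro s hs
        rw [Set.mem_iUnion₂] at hs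
        obtain ⟨f, hf, hsf⟩ := hs
        exact hc f hf s hsf
      obtain ⟨f, hf, hc⟩ := h1
      obtain ⟨i, hi⟩ := hQ3 f D hc
      refine ⟨⟨⟨f, hf⟩, i⟩, ?_⟩
      show MvPolynomial.aeval lam (Q f i ^ e f) ≠ 0
      rw [map_pow]
      refine pow_ne_zero _ ?_
      have h2 : (fun j => D (algebraMap K (AlgebraicClosure K) (t j))) = lam := funext hD'
      rw [h2] at hi
      exact hi

end Pool.Agent.J6H55.JM
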