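import Pool.Agent.J6H55.JM.Spm
import Pool.Agent.J6H55.JM.GT
import Pool.Agent.Q53.EC.Var
import Pool.Agent.Q209.GT.Spec

/-!
# Varieties carrying several maps with stable sets: specialization
-/

set_option autoImplicit false

namespace Pool.Agent.J6H55.JM

open Finset Polynomial FF
open Pool.Agent.W602.GT
open Pool.Agent.Q41.SU
open Pool.Agent.Q41.GT
open Pool.Agent.TH466.QG
open Pool.Agent.Q103.EC
open Pool.Agent.Q53.EC (exists_list crs_finite)

/-- the specialization of the algebraic elements of a finite set -/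
theorem spa_set {k K : Type} [Field k] [Field K] [Algebra k K] {C U : Set K} (hU : U.Finite)
    (h : ∀ u ∈ U, IsAlgebraic (IntermediateField.adjoin k C) u) :
    ∃ Θ : Set K, Θ.Finite ∧ ∀ (E : Type) [Field E] [Algebra k E] (S : Sp k K E),
      (∀ ϑ ∈ Θ, ∃ t, S.T ϑ t) → ∀ C' : Set E, (∀ c ∈ C, ∃ c' ∈ C', S.T c c') →
      (∀ u ∈ U, ∃ u', S.T u u') → ∀ u ∈ U, ∀ u', S.T u u' →
        IsAlgebraic (IntermediateField.adjoin k C') u' := by
  classical
  obtain ⟨m, u, hu⟩ := exists_list hU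
  obtain ⟨Θ, hΘ, hs⟩ := Pool.Agent.Q149.EC.spa (k := k) (fun c : C => (c : K)) u (by
    intro i
    have h1 : Set.range (fun c : C => (c : K)) = C := Subtype.range_coe
    rw [h1]
    apply h
    rw [← hu]
    exact ⟨i, rfl⟩)
  refine ⟨Θ, hΘ, ?_⟩
  intro E _ _ S hS C' hC' hU' v hv v' hvv'
  choose c' hc'C hc' using fun c : C => hC' c.1 c.2
  have hui : ∀ i, u i ∈ U := fun i => by
    rw [← hu]
    exact ⟨i, rfl⟩
  choose u' hu' using fun i => hU' (u i) (hui i)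
  have h1 := hs E S hS c' u' hc' hu'
  rw [← hu] at hv
  obtain ⟨i, rfl⟩ := hv
  have h2 := h1 i
  rw [S.ext (hu' i) hvv'] at h2
  refine elt_mono (IntermediateField.adjoin.mono _ _ _ ?_) h2
  rintro _ ⟨c, rfl⟩
  exact hc'C c

theorem sp_aeval {k K E : Type} [Field k] [Field K] [Field E] [Algebra k K] [Algebra k E]
    (S : Sp k K E) {σ : Type} {c : σ → K} {c' : σ → E} (h : ∀ i, S.T (c i) (c' i))
    (G : MvPolynomial σ k) : S.T (MvPolynomial.aeval c G) (MvPolynomial.aeval c' G) := by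
  induction G using MvPolynomial.induction_on with
  | C a =>
    rw [MvPolynomial.aeval_C, MvPolynomial.aeval_C]
    exact S.const a
  | add p q hp hq =>
    rw [map_add, map_add]
    exact S.add hp hq
  | mul_X p i hp =>
    rw [map_mul, map_mul, MvPolynomial.aeval_X, MvPolynomial.aeval_X]
    exact S.mul hp (h i)

/-- **Varieties carrying several maps with stable sets.** -/
theorem var_joint' {k K : Type} [Field k] [Field K] [Algebra k K] {M : ℕ} {x : Fin (M + 1) → K}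
    (hx : x ≠ 0) (hgen : coords k x = ⊤) {J : Type} [Finite J] {d : J → ℕ} {p q : J → K[X]}
    {P : J → Finset K} (hd : ∀ f, 1 ≤ d f) (hdat : ∀ f, Dat k (d f) (p f) (q f) (P f))
    (halg : Algebra.IsAlgebraic (IntermediateField.adjoin k (⋃ f, crs (P f))) K) :
    ∃ (i1 : Fin (M + 1)) (R : MvPolynomial (Fin (M + 1)) k) (D : Fin (M + 1) → ℕ)
      (g : Fin (M + 1) → ℕ → MvPolynomial (⋃ f, crs (P f) : Set K) k),
      IsForm R ∧ val x R ≠ 0 ∧
      ∀ (E : Type) [Field E] [Algebra k E] (z : Fin (M + 1) → E),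
        (∀ G : MvPolynomial (Fin (M + 1)) k, IsForm G → val x G = 0 → val z G = 0) →
        val z R ≠ 0 → z i1 ≠ 0 ∧ ∃ (p' q' : J → E[X]) (P' : J → Finset E)
          (c' : (⋃ f, crs (P f) : Set K) → E),
          (∀ f, Dat k (d f) (p' f) (q' f) (P' f)) ∧ (∀ f, (P' f).card = (P f).card) ∧
          (∀ c, ∃ f, c' c ∈ crs (P' f)) ∧
          (∀ i j, z j ≠ 0 →
            IsAlgebraic (IntermediateField.adjoin k (⋃ f, crs (P' f))) (z i / z j)) ∧
          ∀ i, MvPolynomial.aeval c' (g i (D i)) ≠ 0 ∧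
            ∑ j ∈ Finset.range (D i + 1), MvPolynomial.aeval c' (g i j) * (z i / z i1) ^ j =
              0 := by
  classical
  obtain ⟨i1, hi1'⟩ := Function.ne_iff.1 hx
  have hi1 : x i1 ≠ 0 := hi1'
  have hu := adjoin_norm hgen hi1
  choose Θ2 hΘ2 hs2 using fun f => spm' (k := k) (hdat f).deg_p (hdat f).deg_q (hdat f).coprime
    (hd f) (hdat f).stab
  choose Θ3 hΘ3 hs3 using fun f => spa_set (k := k) (P f).finite_toSet (hdat f).alg
  obtain ⟨Θ4, hΘ4, hs4⟩ := spa_set (k := k) (C := ⋃ f, crs (P f))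
    (Set.finite_range fun i => x i / x i1) (fun u _ => halg.isAlgebraic u)
  choose D g hg1 hg2 using fun i =>
    Pool.Agent.Q209.GT.alg_eqn (S := ⋃ f, crs (P f)) (halg.isAlgebraic (x i / x i1))
  obtain ⟨H, hH, hs1⟩ := Pool.Agent.Q149.EC.spr hu
    (Θ := ((⋃ f, Θ2 f) ∪ (⋃ f, Θ3 f) ∪ Θ4) ∪ Set.range fun i =>
      (MvPolynomial.aeval (Subtype.val : (⋃ f, crs (P f) : Set K) → K) (g i (D i)))⁻¹)
    ((((Set.finite_iUnion hΘ2).union (Set.finite_iUnion hΘ3)).union hΘ4).union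
      (Set.finite_range _))
  refine ⟨i1, MvPolynomial.X i1 * hz i1 H, D, g, ?_, ?_, ?_⟩
  · exact ⟨1 + H.totalDegree, (MvPolynomial.isHomogeneous_X k i1).mul
      (Pool.Agent.Q53.EC.hz_hom i1 H)⟩
  · change MvPolynomial.aeval x _ ≠ 0
    rw [map_mul, MvPolynomial.aeval_X]
    refine mul_ne_zero hi1 ?_
    change val x _ ≠ 0
    rw [val_hz H hi1]
    exact mul_ne_zero (pow_ne_zero _ hi1) hH
  intro E _ _ z hrel hzR
  change MvPolynomial.aeval z _ ≠ 0 at hzR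
  rw [map_mul, MvPolynomial.aeval_X] at hzR
  have hz1 : z i1 ≠ 0 := left_ne_zero_of_mul hzR
  have hzH : MvPolynomial.aeval (fun i => z i / z i1) H ≠ 0 := by
    have h1 : val z (hz i1 H) ≠ 0 := right_ne_zero_of_mul hzR
    rw [val_hz H hz1] at h1
    exact right_ne_zero_of_mul h1
  have hsp : ∀ G : MvPolynomial (Fin (M + 1)) k,
      MvPolynomial.aeval (fun i => x i / x i1) G = 0 →
      MvPolynomial.aeval (fun i => z i / z i1) G = 0 := by
    intro G hG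
    have h1 : val x (hz i1 G) = 0 := by
      rw [val_hz G hi1, hG, mul_zero]
    have h2 := hrel _ (hz_form i1 G) h1
    rw [val_hz G hz1] at h2
    exact (mul_eq_zero.1 h2).resolve_left (pow_ne_zero _ hz1)
  obtain ⟨S, hSx, hSΘ⟩ := hs1 E (fun i => z i / z i1) hsp hzH
  have hS2 : ∀ f, ∀ ϑ ∈ Θ2 f, ∃ t, S.T ϑ t := fun f ϑ hϑ =>
    hSΘ ϑ (Or.inl (Or.inl (Or.inl (Set.mem_iUnion.2 ⟨f, hϑ⟩))))
  have hS3 : ∀ f, ∀ ϑ ∈ Θ3 f, ∃ t, S.T ϑ t := fun f ϑ hϑ =>
    hSΘ ϑ (Or.inl (Or.inl (Or.inr (Set.mem_iUnion.2 ⟨f, hϑ⟩))))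
  have hS4 : ∀ ϑ ∈ Θ4, ∃ t, S.T ϑ t := fun ϑ hϑ => hSΘ ϑ (Or.inl (Or.inr hϑ))
  choose p' q' P' hp' hq' hco' hP' hcard hto hfrom hcto hcfrom using fun f => hs2 f E S (hS2 f)
  have halgP : ∀ f, ∀ z' ∈ P' f, IsAlgebraic (IntermediateField.adjoin k (crs (P' f))) z' := by
    intro f z' hz'
    obtain ⟨z0, hz0, hzz⟩ := hfrom f z' hz'
    refine hs3 f E S (hS3 f) (crs (P' f)) (hcto f) (fun u hu => ?_) z0 hz0 z' hzz
    obtain ⟨u', -, hu'⟩ := hto f u hu
    exact ⟨u', hu'⟩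
  have hC : ∀ c : (⋃ f, crs (P f) : Set K), ∃ c' : E, (∃ f, c' ∈ crs (P' f)) ∧
      S.T c.1 c' := by
    intro c
    obtain ⟨f, hcf⟩ := Set.mem_iUnion.1 c.2
    obtain ⟨c', hc', hcc⟩ := hcto f c hcf
    exact ⟨c', ⟨f, hc'⟩, hcc⟩
  choose c' hc' hcc using hC
  refine ⟨hz1, p', q', P', c', fun f => ⟨hp' f, hq' f, hco' f, hP' f, halgP f⟩, hcard, hc', ?_,
    fun i => ⟨?_, ?_⟩⟩
  · have h4 := hs4 E S hS4 (⋃ f, crs (P' f)) (by
      intro c hc
      obtain ⟨f, hcf⟩ := hc' ⟨c, hc⟩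
      exact ⟨c' ⟨c, hc⟩, Set.mem_iUnion.2 ⟨f, hcf⟩, hcc ⟨c, hc⟩⟩) (by
      rintro _ ⟨i, rfl⟩
      exact ⟨_, hSx i⟩)
    have h5 : ∀ i, IsAlgebraic (IntermediateField.adjoin k (⋃ f, crs (P' f))) (z i / z i1) :=
      fun i => h4 _ ⟨i, rfl⟩ _ (hSx i)
    intro i j hj
    have h3 : z i / z j = (z i / z i1) * (z j / z i1)⁻¹ := by field_simp
    rw [h3]
    exact (h5 i).mul (h5 j).inv
  · exact S.ne_zero (sp_aeval S hcc (g i (D i))) (hSΘ _ (Or.inr ⟨i, rfl⟩)) (hg1 i)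
  · have h1 : S.T (∑ j ∈ Finset.range (D i + 1),
        MvPolynomial.aeval (Subtype.val : (⋃ f, crs (P f) : Set K) → K) (g i j) *
          (x i / x i1) ^ j)
        (∑ j ∈ Finset.range (D i + 1), MvPolynomial.aeval c' (g i j) * (z i / z i1) ^ j) :=
      S.sum _ fun j _ => S.mul (sp_aeval S hcc (g i j)) (S.pow (hSx i) j)
    rw [hg2 i] at h1
    exact S.uniq h1

/-- **Varieties carrying several maps with stable sets**, a short form. -/
theorem var_joint {k K : Type} [Field k] [Field K] [Algebra k K] {M : ℕ} {x : Fin (M + 1) → K}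
    (hx : x ≠ 0) (hgen : coords k x = ⊤) {J : Type} [Finite J] {d : J → ℕ} {p q : J → K[X]}
    {P : J → Finset K} (hd : ∀ f, 1 ≤ d f) (hdat : ∀ f, Dat k (d f) (p f) (q f) (P f))
    (halg : Algebra.IsAlgebraic (IntermediateField.adjoin k (⋃ f, crs (P f))) K) :
    ∃ R : MvPolynomial (Fin (M + 1)) k, IsForm R ∧ val x R ≠ 0 ∧
      ∀ (E : Type) [Field E] [Algebra k E] (z : Fin (M + 1) → E),
        (∀ G : MvPolynomial (Fin (M + 1)) k, IsForm G → val x G = 0 → val z G = 0) →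
        val z R ≠ 0 → ∃ (p' q' : J → E[X]) (P' : J → Finset E),
          (∀ f, Dat k (d f) (p' f) (q' f) (P' f)) ∧ (∀ f, (P' f).card = (P f).card) ∧
          ∀ i j, z j ≠ 0 →
            IsAlgebraic (IntermediateField.adjoin k (⋃ f, crs (P' f))) (z i / z j) := by
  obtain ⟨i1, R, D, g, hR, hxR, h⟩ := var_joint' hx hgen hd hdat halg
  refine ⟨R, hR, hxR, ?_⟩
  intro E _ _ z hz hzR
  obtain ⟨-, p', q', P', c', h1, h2, -, h3, -⟩ := h E z hz hzR
  exact ⟨p', q', P', h1, h2, h3⟩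

/-- **Subvarieties.** -/
theorem str_joint : ∃ B : ℕ → ℕ, ∀ (k K : Type) [Field k] [CharZero k] [Field K] [Algebra k K]
    (M : ℕ) (x : Fin (M + 1) → K), x ≠ 0 → coords k x = ⊤ → ∀ (J : Type) [Fintype J] (d : J → ℕ)
    (p q : J → K[X]) (P : J → Finset K), (∀ f, 2 ≤ d f) →
    (∀ f, Dat k (d f) (p f) (q f) (P f)) → (∀ f, B (d f) ≤ (P f).card) →
    Algebra.IsAlgebraic (IntermediateField.adjoin k (⋃ f, crs (P f))) K →
    StronglyGeneral k x := by
  obtain ⟨B, hB⟩ := gt_joint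
  refine ⟨B, ?_⟩
  intro k K _ _ _ _ M x hx hgen J _ d p q P hd hdat hcard halg
  obtain ⟨R, hR, hxR, hmain⟩ := var_joint hx hgen (fun f => le_trans (by omega) (hd f)) hdat halg
  refine ⟨R, hR, hxR, ?_⟩
  intro E _ _ w z hz hzR hw htr
  obtain ⟨p', q', P', hdat', hcard', hal⟩ := hmain E z hz.spec hzR
  refine hB k E w hw htr J d p' q' P' hd hdat' (fun f => by rw [hcard' f]; exact hcard f) ?_
  obtain ⟨j, hj'⟩ := Function.ne_iff.1 hz.ne
  have hj : z j ≠ 0 := hj'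
  have hgen' := adjoin_norm hz.gen hj
  exact alg_over (E := E) (K := E) hgen' _ (fun m => hal m j hj)

end Pool.Agent.J6H55.JM
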