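import Pool.Agent.Q103.KO.All
import Pool.Agent.J6H55.JM.Var
import Pool.Agent.J6H55.JM.Sdat

/-!
# Varieties carrying several maps with stable sets: discs

`one_est`: the estimate for the derivatives in the proof of `Pool.Agent.Q144.KO.t_dbd` (helpers 103 and 144), for
specialisations of the function field of the base. `dbd_joint`: the derivatives of discs in a variety which
carries several maps.
-/

set_option autoImplicit false

namespace Pool.Agent.J6H55.JM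

open Finset Polynomial Filter Topology Metric
open Pool.Agent.Q41.SU
open Pool.Agent.Q41.GT
open Pool.Agent.Q103.EC
open Pool.Agent.Q103.KO
open Pool.Agent.Q144.KO
open Pool.Agent.TH466.QG (Sp hz hz_form val_hz adjoin_norm)
open Pool.Agent.W602.GT (val coords IsForm alg_adjoin exists_dual)

theorem one_est (d : ℕ) (hd : 2 ≤ d) : ∃ B : ℕ, ∀ (L : Type) [Field L] [Algebra ℂ L] (m : ℕ)
    (u : Fin m → L), IntermediateField.adjoin ℂ (Set.range u) = ⊤ → ∀ p q : L[X],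
    p.natDegree ≤ d → q.natDegree = d → IsCoprime p q → ∀ P : Finset L, Stab p q P →
    B ≤ P.card → Algebra.IsAlgebraic (IntermediateField.adjoin ℂ (crs P)) L →
    ∃ Θ : Set L, Θ.Finite ∧ (∀ i, u i ∈ Θ) ∧ ∀ C₀ : ℝ, ∃ C : ℝ, ∀ S : Sp ℂ L DK,
      (∀ ϑ ∈ Θ, ∃ s, S.T ϑ s ∧ Bd C₀ s) → ∀ i s, S.T (u i) s → ‖Fn (DDer s) 0‖ ≤ C := by
  classical
  obtain ⟨a, b, φ, hb, hba, ha, hφ, hcst, hldk⟩ := k_ldk d hd
  obtain ⟨B, hB⟩ := k_gen d a b φ hd hφ hcst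
  refine ⟨B, ?_⟩
  intro L _ _ m u hadj p q hp hq hc P hP hcard halg
  obtain ⟨P', hP'sub, hP', hgen'⟩ := hB ℂ L p q hp hq hc P hP hcard halg
  obtain ⟨E₀, hE₀, halp'⟩ := Pool.Agent.Q166.GT.Alp.t_alp d hd P'.card
  obtain ⟨α, hα, hαe⟩ := halp' L p q P' hP' rfl
  obtain ⟨C', hC', hldk'⟩ := hldk P'.card E₀ hE₀
  obtain ⟨w, t, ht⟩ := exists_tb hadj
  obtain ⟨δ, hδ⟩ := exists_dual ht
  have hδ' : ∀ i j, δ i (t j) = if i = j then 1 else 0 := by
    intro i j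
    have h1 := congrFun (congrFun hδ i) j
    rw [Matrix.of_apply, Matrix.one_apply] at h1
    exact h1
  obtain ⟨M₀, hM₀⟩ := hgen' w t ht δ hδ'
  choose g hg hid using hM₀
  obtain ⟨Θ, hΘ, hΘt, hΘu, hest⟩ := main_est φ ha hb hcst hd hE₀ hC' hldk' Pool.Agent.Q209.KO.spf
    p q hp hq hc P' hP' rfl α hα hαe t δ M₀ g hg hid u
  obtain ⟨H, hH, hG, hspd'⟩ := k_spd ℂ L (Fin m) u hadj w t ht δ hδ' Θ hΘ
  choose! G hG using hG
  refine ⟨insert (MvPolynomial.aeval u H)⁻¹ Θ, hΘ.insert _, fun i => Or.inr (hΘu i), ?_⟩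
  intro C₀
  obtain ⟨C, hC⟩ := hest C₀
  refine ⟨C, fun S hS i s hs => ?_⟩
  choose z hz hzb using fun i => hS (u i) (Or.inr (hΘu i))
  have hrel : ∀ G : MvPolynomial (Fin m) ℂ, MvPolynomial.aeval u G = 0 →
      MvPolynomial.aeval z G = 0 := fun G hG => S.eq_zero (sp_aeval S hz G) hG
  have hHz0 : MvPolynomial.aeval z H ≠ 0 := by
    obtain ⟨y, hy, -⟩ := hS _ (Or.inl rfl)
    exact S.ne_zero (sp_aeval S hz H) ⟨y, hy⟩ hH
  obtain ⟨S1, hS1u, hS1Θ, hS1D⟩ := hspd' DK z hrel hHz0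
  have h1 := hC S1 (by
    intro ϑ hϑ
    obtain ⟨s1, hs1⟩ := hS1Θ ϑ hϑ
    obtain ⟨s2, hs2, hb2⟩ := hS ϑ (Or.inr hϑ)
    have e1 : s1 * MvPolynomial.aeval z H = MvPolynomial.aeval z (G ϑ) := by
      have h2 := S1.mul hs1 (sp_aeval S1 hS1u H)
      rw [hG ϑ hϑ] at h2
      exact S1.ext h2 (sp_aeval S1 hS1u (G ϑ))
    have e2 : s2 * MvPolynomial.aeval z H = MvPolynomial.aeval z (G ϑ) := by
      have h2 := S.mul hs2 (sp_aeval S hz H)
      rw [hG ϑ hϑ] at h2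
      exact S.ext h2 (sp_aeval S hz (G ϑ))
    have e3 : s1 = s2 := mul_right_cancel₀ hHz0 (e1.trans e2.symm)
    exact ⟨s1, hs1, by rw [e3]; exact hb2⟩)
    (fun ϑ hϑ s hs => hS1D DDer ϑ hϑ s hs) i (z i) (hS1u i)
  rw [S.ext hs (hz i)]
  exact h1

theorem exists_tb' {K : Type} [Field K] [Algebra ℂ K] {T : Set K} (hT : T.Finite)
    (halg : Algebra.IsAlgebraic (IntermediateField.adjoin ℂ T) K) :
    ∃ (w : ℕ) (t : Fin w → K), IsTranscendenceBasis ℂ t ∧ ∀ j, t j ∈ T := by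
  have halg' := alg_adjoin halg
  obtain ⟨B, hB, hBb⟩ := exists_isTranscendenceBasis_subset (R := ℂ) (A := K) T
  have hfin : Finite B := (hT.subset hB).to_subtype
  obtain ⟨w, ⟨e⟩⟩ := Finite.exists_equiv_fin B
  exact ⟨w, fun i => e.symm i, hBb.comp_equiv e.symm, fun j => hB (e.symm j).2⟩

theorem dbd_joint : ∃ B : ℕ → ℕ, ∀ (K : Type) [Field K] [Algebra ℂ K] (M : ℕ)
    (x : Fin (M + 1) → K), x ≠ 0 → coords ℂ x = ⊤ → ∀ (J : Type) [Fintype J] (d : J → ℕ)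
    (L : J → Type) [∀ f, Field (L f)] [∀ f, Algebra ℂ (L f)] [∀ f, Algebra (L f) K]
    [∀ f, IsScalarTower ℂ (L f) K] (p q : ∀ f, (L f)[X]) (P : ∀ f, Finset (L f)),
    (∀ f, 2 ≤ d f) → (∀ f, SDat ℂ (d f) (p f) (q f) (P f)) → (∀ f, B (d f) ≤ (P f).card) →
    Algebra.IsAlgebraic (IntermediateField.adjoin ℂ (⋃ f, Set.range (algebraMap (L f) K))) K →
    DBound x := by
  classical
  choose B hB using one_est
  refine ⟨fun d => if h : 2 ≤ d then B d h else 0, ?_⟩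
  intro K _ _ M x hx hcoords J _ d L _ _ _ _ p q P hd hdat hcard halg
  choose m u hu using fun f => (hdat f).fg
  have hone : ∀ f : J, ∃ Θ : Set (L f), Θ.Finite ∧ (∀ i, u f i ∈ Θ) ∧ ∀ C₀ : ℝ, ∃ C : ℝ,
      ∀ S : Sp ℂ (L f) DK, (∀ ϑ ∈ Θ, ∃ s, S.T ϑ s ∧ Bd C₀ s) →
        ∀ i s, S.T (u f i) s → ‖Fn (DDer s) 0‖ ≤ C := by
    intro f
    have h1 : (if h : 2 ≤ d f then B (d f) h else 0) ≤ (P f).card := hcard f
    rw [dif_pos (hd f)] at h1
    exact hB (d f) (hd f) (L f) (m f) (u f) (hu f) (p f) (q f) (hdat f).deg_p (hdat f).deg_q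
      (hdat f).coprime (P f) (hdat f).stab h1 (hdat f).alg
  choose Θ1 hΘ1 hΘ1u hest using hone
  choose Cf hCf using hest
  obtain ⟨i₁, hi₁⟩ := Function.ne_iff.1 hx
  have hi1 : x i₁ ≠ 0 := hi₁
  obtain ⟨v, hv⟩ : ∃ v : Fin (M + 1) → K, v = fun i => x i / x i₁ := ⟨_, rfl⟩
  have hadj : IntermediateField.adjoin ℂ (Set.range v) = ⊤ := by
    rw [hv]
    exact adjoin_norm hcoords hi1
  -- a transcendence basis
  set T : Set K := ⋃ f, Set.range fun i => algebraMap (L f) K (u f i) with hT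
  have hTf : T.Finite := Set.finite_iUnion fun f => Set.finite_range _
  have hTalg : Algebra.IsAlgebraic (IntermediateField.adjoin ℂ T) K := by
    have h1 : IntermediateField.adjoin ℂ (⋃ f, Set.range (algebraMap (L f) K)) ≤
        IntermediateField.adjoin ℂ T := by
      rw [IntermediateField.adjoin_le_iff]
      intro y hy
      obtain ⟨f, y, rfl⟩ := Set.mem_iUnion.1 hy
      have h2 : y ∈ IntermediateField.adjoin ℂ (Set.range (u f)) := by
        rw [hu f]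
        exact IntermediateField.mem_top
      have h3 : IntermediateField.adjoin ℂ (Set.range (u f)) ≤
          (IntermediateField.adjoin ℂ T).comap (IsScalarTower.toAlgHom ℂ (L f) K) := by
        rw [IntermediateField.adjoin_le_iff]
        rintro _ ⟨i, rfl⟩
        exact IntermediateField.subset_adjoin ℂ T (Set.mem_iUnion.2 ⟨f, i, rfl⟩)
      exact h3 h2
    exact ⟨fun y => elt_mono h1 (halg.isAlgebraic y)⟩
  obtain ⟨w, t, ht, htT⟩ := exists_tb' hTf hTalg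
  have htT' : ∀ j, ∃ (f : J) (i : Fin (m f)), algebraMap (L f) K (u f i) = t j := by
    intro j
    obtain ⟨f, i, h⟩ := Set.mem_iUnion.1 (htT j)
    exact ⟨f, i, h⟩
  choose ft it hft using htT'
  obtain ⟨δ, hδ⟩ := exists_dual ht
  have hδ' : ∀ i j, δ i (t j) = if i = j then 1 else 0 := by
    intro i j
    have h1 := congrFun (congrFun hδ i) j
    rw [Matrix.of_apply, Matrix.one_apply] at h1
    exact h1
  set Θ : Set K := (Set.range v) ∪ (Set.range t) ∪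
    (Set.range fun s : Fin w × Fin (M + 1) => δ s.1 (v s.2)) ∪
    (⋃ f, (algebraMap (L f) K) '' (Θ1 f)) with hΘdef
  have hΘ : Θ.Finite := (((Set.finite_range v).union (Set.finite_range t)).union
    (Set.finite_range _)).union (Set.finite_iUnion fun f => (hΘ1 f).image _)
  have mv : ∀ i, v i ∈ Θ := fun i => Or.inl (Or.inl (Or.inl ⟨i, rfl⟩))
  have mt : ∀ j, t j ∈ Θ := fun j => Or.inl (Or.inl (Or.inr ⟨j, rfl⟩))
  have mdv : ∀ j i, δ j (v i) ∈ Θ := fun j i => Or.inl (Or.inr ⟨(j, i), rfl⟩)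
  have m1 : ∀ f, ∀ ϑ ∈ Θ1 f, algebraMap (L f) K ϑ ∈ Θ := fun f ϑ hϑ =>
    Or.inr (Set.mem_iUnion.2 ⟨f, ϑ, hϑ, rfl⟩)
  clear_value Θ
  obtain ⟨H, hH, hG, hspd'⟩ := k_spd ℂ K (Fin (M + 1)) v hadj w t ht δ hδ' Θ hΘ
  choose! G hG using hG
  refine ⟨i₁, MvPolynomial.X i₁ * hz i₁ H, ?_, ?_, ?_, ?_⟩
  · obtain ⟨e, he⟩ := hz_form i₁ H
    exact ⟨1 + e, (MvPolynomial.isHomogeneous_X ℂ i₁).mul he⟩
  · show MvPolynomial.aeval x _ ≠ 0
    rw [map_mul, MvPolynomial.aeval_X]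
    refine mul_ne_zero hi1 ?_
    show val x _ ≠ 0
    rw [val_hz H hi1]
    rw [hv] at hH
    exact mul_ne_zero (pow_ne_zero _ hi1) hH
  · intro a' ha'
    rw [map_mul, MvPolynomial.eval_X] at ha'
    exact left_ne_zero_of_mul ha'
  intro a0 _ ha0
  rw [map_mul, MvPolynomial.eval_X] at ha0
  have ha1 : a0 i₁ ≠ 0 := left_ne_zero_of_mul ha0
  obtain ⟨a', ha'⟩ : ∃ a' : Fin (M + 1) → ℂ, a' = fun i => a0 i / a0 i₁ := ⟨_, rfl⟩
  have hHa : MvPolynomial.eval a' H ≠ 0 := by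
    have h1 : val a0 (hz i₁ H) ≠ 0 := right_ne_zero_of_mul ha0
    rw [val_hz H ha1] at h1
    rw [ha']
    exact right_ne_zero_of_mul h1
  have hcH : Continuous fun b : Fin (M + 1) → ℂ => MvPolynomial.eval b H :=
    MvPolynomial.continuous_eval H
  obtain ⟨C₀, hC₀⟩ := (hΘ.image fun ϑ =>
    ‖MvPolynomial.eval a' (G ϑ) * (MvPolynomial.eval a' H)⁻¹‖ + 1).bddAbove
  have hnear : ∀ᶠ b in 𝓝 a', MvPolynomial.eval b H ≠ 0 ∧
      ∀ ϑ ∈ Θ, ‖MvPolynomial.eval b (G ϑ) * (MvPolynomial.eval b H)⁻¹‖ ≤ C₀ := by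
    refine (hcH.continuousAt.eventually_ne hHa).and ((Filter.eventually_all_finite hΘ).2 ?_)
    intro ϑ hϑ
    have h1 : ContinuousAt (fun b : Fin (M + 1) → ℂ =>
        ‖MvPolynomial.eval b (G ϑ) * (MvPolynomial.eval b H)⁻¹‖) a' :=
      ((MvPolynomial.continuous_eval (G ϑ)).continuousAt.mul
        (hcH.continuousAt.inv₀ hHa)).norm
    have h2 : ‖MvPolynomial.eval a' (G ϑ) * (MvPolynomial.eval a' H)⁻¹‖ < C₀ := by
      have := hC₀ ⟨ϑ, hϑ, rfl⟩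
      simp only at this
      linarith
    filter_upwards [h1.eventually (gt_mem_nhds h2)] with b hb
    exact le_of_lt hb
  rw [Metric.eventually_nhds_iff] at hnear
  obtain ⟨r, hr, hnear⟩ := hnear
  -- the bound for the derivatives
  set Cm : ℝ := ∑ f, max (Cf f C₀) 0 with hCm
  have hCm0 : 0 ≤ Cm := Finset.sum_nonneg fun f _ => le_max_right _ _
  have hCfm : ∀ f, Cf f C₀ ≤ Cm := fun f => (le_max_left _ _).trans
    (Finset.single_le_sum (f := fun f => max (Cf f C₀) 0) (fun f _ => le_max_right _ _)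
      (Finset.mem_univ f))
  set C : ℝ := ∑ _j : Fin w, C₀ * Cm with hCdef
  refine ⟨r, 8 * max C 1, hr, by positivity, ?_⟩
  intro f hf hf0 hfb i
  obtain ⟨z, hz1, hz2⟩ := disc_pt hf hi1 hf0
  rw [← hv] at hz2
  obtain ⟨b', hb'⟩ : ∃ b' : Fin (M + 1) → ℂ, b' = fun i => f 0 i / f 0 i₁ := ⟨_, rfl⟩
  have hFz : (fun i => Fn (z i) 0) = b' := by
    rw [hb']
    funext i
    exact (hz1 i).2.1
  have hbn := hnear (y := b') (by
    rw [dist_pi_lt_iff hr]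
    intro i
    rw [dist_eq_norm, hb', ha']
    exact hfb i)
  have hev : ∀ Q : MvPolynomial (Fin (M + 1)) ℂ, Reg (MvPolynomial.aeval z Q) 0 ∧
      Fn (MvPolynomial.aeval z Q) 0 = MvPolynomial.eval b' Q := by
    intro Q
    have := fn_aeval z (fun i => (hz1 i).1) Q
    rw [hFz] at this
    exact this
  have hHz : Fn (MvPolynomial.aeval z H) 0 ≠ 0 := by
    rw [(hev H).2]
    exact hbn.1
  have hHz0 : MvPolynomial.aeval z H ≠ 0 := by
    intro h0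
    rw [h0] at hHz
    exact hHz fn_zero
  obtain ⟨S, hSu, hSΘ, hSD⟩ := hspd' DK z hz2 hHz0
  have hSb : ∀ ϑ ∈ Θ, ∃ s, S.T ϑ s ∧ Bd C₀ s := by
    intro ϑ hϑ
    obtain ⟨s, hs⟩ := hSΘ ϑ hϑ
    refine ⟨s, hs, ?_⟩
    have h2 : S.T (ϑ * MvPolynomial.aeval v H) (s * MvPolynomial.aeval z H) :=
      S.mul hs (S.val hSu H)
    rw [hG ϑ hϑ] at h2
    have h3 : s * MvPolynomial.aeval z H = MvPolynomial.aeval z (G ϑ) :=
      S.ext h2 (S.val hSu (G ϑ))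
    have h4 : s = MvPolynomial.aeval z (G ϑ) * (MvPolynomial.aeval z H)⁻¹ := by
      rw [← h3, mul_assoc, mul_inv_cancel₀ hHz0, mul_one]
    have h5 : Reg (MvPolynomial.aeval z H)⁻¹ 0 := (hev H).1.inv hHz zero_mem_Dm
    rw [h4]
    refine ⟨(hev _).1.mul h5 zero_mem_Dm, ?_⟩
    rw [fn_mul (hev _).1 h5, fn_inv (hev H).1 hHz, (hev _).2, (hev H).2]
    exact hbn.2 ϑ hϑ
  have hbd : ∀ ϑ ∈ Θ, ∀ s, S.T ϑ s → Bd C₀ s := by
    intro ϑ hϑ s hs
    obtain ⟨s', hs', hb⟩ := hSb ϑ hϑ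
    rw [S.ext hs hs']
    exact hb
  have hder : ∀ j, ∀ s, S.T (t j) s → Bd Cm (DDer s) := by
    intro j s hs
    have h1 := hCf (ft j) C₀ (S.res (K0 := L (ft j))) (fun ϑ hϑ => hSb _ (m1 _ ϑ hϑ)) (it j) s
      (by
        show S.T (algebraMap (L (ft j)) K (u (ft j) (it j))) s
        rw [hft]
        exact hs)
    exact ⟨reg_der (hbd _ (mt j) s hs).1, h1.trans (hCfm _)⟩
  obtain ⟨τ, β, hτ, hβ, hsum⟩ := hSD DDer (v i) (mv i) (z i) (hSu i)
  have hB : Bd C (DDer (z i)) := by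
    rw [hsum, hCdef]
    exact Bd.sum _ fun j _ => (hbd _ (mdv j i) _ (hβ j)).mul (hder j _ (hτ j))
  have h1 := hB.2
  rw [(hz1 i).2.2, norm_mul] at h1
  have h2 : ‖(1 / 8 : ℂ)‖ = 1 / 8 := by norm_num
  rw [h2] at h1
  have h3 : C ≤ max C 1 := le_max_left _ _
  linarith

end Pool.Agent.J6H55.JM
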