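import Pool.Agent.J6H55.JM.Sdat

/-!
# Several maps over subfields: the field of moduli as a subfield
-/

set_option autoImplicit false

namespace Pool.Agent.J6H55.JM

open Polynomial
open Pool.Agent.W602.GT
open Pool.Agent.Q41.GT (crs)

theorem lift_down {k K : Type} [Field k] [Field K] [Algebra k K] (E : IntermediateField k K)
    (F : IntermediateField k E) (y : E) (hy : IsAlgebraic (IntermediateField.lift F) (y : K)) :
    IsAlgebraic F y := by
  obtain ⟨p, hp, hpa⟩ := hy
  let e : IntermediateField.lift F →+* F := ((IntermediateField.liftAlgEquiv F).symm :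
    IntermediateField.lift F ≃ₐ[k] F).toRingEquiv.toRingHom
  have he : ∀ c : IntermediateField.lift F, algebraMap E K (algebraMap F E (e c)) = (c : K) := by
    intro c
    obtain ⟨c', rfl⟩ := (IntermediateField.liftAlgEquiv F).surjective c
    show algebraMap E K (algebraMap F E ((IntermediateField.liftAlgEquiv F).symm
      (IntermediateField.liftAlgEquiv F c'))) = _
    rw [AlgEquiv.symm_apply_apply]
    rfl
  refine ⟨p.map e, (Polynomial.map_ne_zero_iff e.injective).2 hp, ?_⟩
  apply (algebraMap E K).injective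
  rw [map_zero, aeval_def, eval₂_map, hom_eval₂, ← hpa, aeval_def]
  congr 1

theorem alg_down {k K : Type} [Field k] [Field K] [Algebra k K] (E : IntermediateField k K)
    {S : Set K} {T : Set E} (hT : ∀ s ∈ S, ∃ t ∈ T, (t : K) = s) (y : E)
    (hy : IsAlgebraic (IntermediateField.adjoin k S) (y : K)) :
    IsAlgebraic (IntermediateField.adjoin k T) y := by
  apply lift_down
  refine elt_mono ?_ hy
  rw [IntermediateField.lift_adjoin, IntermediateField.adjoin_le_iff]
  intro s hs
  obtain ⟨t, ht, rfl⟩ := hT s hs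
  exact IntermediateField.subset_adjoin k _ ⟨t, ht, rfl⟩

/-- general type, for a subfield -/
theorem gt_joint' : ∃ B : ℕ → ℕ, ∀ (k K : Type) [Field k] [CharZero k] [Field K] [Algebra k K]
    (E : IntermediateField k K) (w : ℕ), 1 ≤ w → Algebra.trdeg k E = w → ∀ (J : Type) [Fintype J]
    (d : J → ℕ) (L : J → IntermediateField k K) (p q : ∀ f, (L f)[X]) (P : ∀ f, Finset (L f)),
    (∀ f, 2 ≤ d f) → (∀ f, SDat k (d f) (p f) (q f) (P f)) → (∀ f, B (d f) ≤ (P f).card) →
    (∀ f, L f ≤ E) →
    (∀ y ∈ E, IsAlgebraic (IntermediateField.adjoin k (⋃ f, (L f : Set K))) y) →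
    GeneralType k E w := by
  classical
  obtain ⟨B, hB⟩ := gt_joint
  refine ⟨B, ?_⟩
  intro k K _ _ _ _ E w hw htr J _ d L p q P hd hdat hcard hle halg
  letI : ∀ f, Algebra (L f) E := fun f => (IntermediateField.inclusion (hle f)).toRingHom.toAlgebra
  haveI : ∀ f, IsScalarTower k (L f) E := fun f => IsScalarTower.of_algebraMap_eq fun c => rfl
  have hc : ∀ f, ((P f).image (algebraMap (L f) E)).card = (P f).card := fun f =>
    Finset.card_image_of_injective _ (algebraMap (L f) E).injective
  refine hB k E w hw htr J d _ _ _ hd (fun f => (hdat f).toDat (K := E))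
    (fun f => by rw [hc]; exact hcard f) (alg_crs hdat ?_)
  refine ⟨fun y => alg_down E (S := ⋃ f, (L f : Set K)) ?_ y (halg y y.2)⟩
  intro s hs
  obtain ⟨f, hf⟩ := Set.mem_iUnion.1 hs
  exact ⟨algebraMap (L f) E ⟨s, hf⟩, Set.mem_iUnion.2 ⟨f, ⟨s, hf⟩, rfl⟩, rfl⟩

end Pool.Agent.J6H55.JM
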