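import Pool.Agent.J6H55.JM.Pic
import Pool.Agent.J6H55.JM.Crv
import Pool.Agent.J6H55.JM.Dbd
import Pool.Agent.Q103.EC.Hyp

/-!
# Varieties carrying several maps with many preperiodic points are hyperbolic
-/

set_option autoImplicit false

namespace Pool.Agent.J6H55.JM

open Polynomial
open Pool.Agent.W602.GT
open Pool.Agent.Q41.GT (crs)
open Pool.Agent.Q103.EC (HypOff hypOff_of)

/-- **Several maps.** `K` is algebraic over the field generated by the moduli fields `L f` of the maps. -/
theorem hyp_joint : ∃ B : ℕ → ℕ, ∀ (K : Type) [Field K] [Algebra ℂ K] (J : Type) [Fintype J]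
    (d : J → ℕ) (L : J → Type) [∀ f, Field (L f)] [∀ f, Algebra ℂ (L f)] [∀ f, Algebra (L f) K]
    [∀ f, IsScalarTower ℂ (L f) K] (p q : ∀ f, (L f)[X]) (P : ∀ f, Finset (L f)),
    (∀ f, 2 ≤ d f) → (∀ f, SDat ℂ (d f) (p f) (q f) (P f)) → (∀ f, B (d f) ≤ (P f).card) →
    Algebra.IsAlgebraic (IntermediateField.adjoin ℂ (⋃ f, Set.range (algebraMap (L f) K))) K →
    ∀ (M : ℕ) (x : Fin (M + 1) → K), x ≠ 0 → coords ℂ x = ⊤ → ∃ R, HypOff x R := by
  classical
  obtain ⟨B2, hB2⟩ := str_joint
  obtain ⟨B3, hB3⟩ := pic_joint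
  obtain ⟨B4, hB4⟩ := crv_joint
  obtain ⟨B5, hB5⟩ := dbd_joint
  refine ⟨fun d => max (B2 d) (max (B3 d) (max (B4 d) (B5 d))), ?_⟩
  intro K _ _ J _ d L _ _ _ _ p q P hd hdat hcard halg M x hx hgen
  have : CharZero K := charZero_of_injective_algebraMap (algebraMap ℂ K).injective
  have hc : ∀ f, ((P f).image (algebraMap (L f) K)).card = (P f).card := fun f =>
    Finset.card_image_of_injective _ (algebraMap (L f) K).injective
  have c2 : ∀ f, B2 (d f) ≤ ((P f).image (algebraMap (L f) K)).card := fun f => by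
    rw [hc]
    exact (le_max_left _ _).trans (hcard f)
  have c3 : ∀ f, B3 (d f) ≤ ((P f).image (algebraMap (L f) K)).card := fun f => by
    rw [hc]
    exact ((le_max_left _ _).trans (le_max_right _ _)).trans (hcard f)
  have c4 : ∀ f, B4 (d f) ≤ ((P f).image (algebraMap (L f) K)).card := fun f => by
    rw [hc]
    exact (((le_max_left _ _).trans (le_max_right _ _)).trans (le_max_right _ _)).trans (hcard f)
  have c5 : ∀ f, B5 (d f) ≤ (P f).card := fun f =>
    (((le_max_right _ _).trans (le_max_right _ _)).trans (le_max_right _ _)).trans (hcard f)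
  have halg' := alg_crs hdat halg
  have hD := fun f => (hdat f).toDat (K := K)
  exact hypOff_of
    (hB2 ℂ K M x hx hgen J d _ _ _ hd hD c2 halg')
    (hB3 K M x hx hgen J d _ _ _ hd hD c3 halg')
    (hB4 ℂ K M x hx hgen J d _ _ _ hd hD c4 halg')
    (Pool.Agent.Q151.KO.kob K M x (hB5 K M x hx hgen J d L p q P hd hdat c5 halg))

end Pool.Agent.J6H55.JM
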