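import Pool.Agent.J6H55.JM.Poly

/-!
# Several families of symmetric forms give general type

The theorem `Pool.Agent.Q92.GT.t_K4` for several families of symmetric forms `F i` (the family of `F i`
is `fam i`), each with its own effective divisor `R f`: the forms of the family `f` vanish on `R f`. The
forms of all families together have no common zeros, and for each family `f` there is a vector field
`D₀` on which the forms of the other families do not depend.
-/

set_option autoImplicit false

namespace Pool.Agent.J6H55.JM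

open Finset FF
open Pool.Agent.W602.GT
open Pool.Agent.W603.LV (Ge)
open Pool.Agent.Q41.GT
open Pool.Agent.Q92.GT (ge_der exists_fam der_sum)

theorem gtf_joint (hN : S_nul) (hS : S_sym) (hC : S_cof) :
    ∀ (k K : Type) [Field k] [CharZero k] [Field K] [Algebra k K] (w : ℕ), 1 ≤ w →
    Algebra.trdeg k K = w → ∀ (J ι : Type) [Fintype J] [Fintype ι] (fam : ι → J)
    (F : ι → Derivation k K K → K) (C C' : ℕ) (R : J → Place k K → ℕ) (H : Finset K), 1 ≤ C →
    Algebra.IsAlgebraic (IntermediateField.adjoin k (H : Set K)) K →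
    (∀ v, ∀ h ∈ H, Ge v (-((C' : ℤ) * ∑ f, (R f v : ℤ))) h) →
    (∀ v D, DerReg v D → ∀ i, Ge v (R (fam i) v) (F i D)) →
    (∀ f : J, ∃ D₀ : Derivation k K K, D₀ ≠ 0 ∧ ∀ i, fam i ≠ f →
      ∀ (c : K) (D : Derivation k K K), F i (D + c • D₀) = F i D) →
    (∀ t : Fin w → K, IsTranscendenceBasis k t →
      ∃ Q : ι → MvPolynomial (Fin w) K, (∀ i, (Q i).IsHomogeneous C) ∧
        (∀ i D, F i D = MvPolynomial.eval (fun j => D (t j)) (Q i)) ∧
        ∀ lam : Fin w → AlgebraicClosure K, lam ≠ 0 → ∃ i, MvPolynomial.aeval lam (Q i) ≠ 0) →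
    GeneralType k K w := by
  classical
  intro k K _ _ _ _ w hw htr J ι _ _ fam F C C' R H hC1 halg hH hF hD0 hQ
  have : Infinite k := CharZero.infinite k
  have : CharZero K := charZero_of_injective_algebraMap (algebraMap k K).injective
  have : Infinite K := CharZero.infinite K
  -- the transcendence basis
  have halg' := alg_adjoin halg
  obtain ⟨B, hB, hBb⟩ := exists_isTranscendenceBasis_subset (R := k) (A := K) (H : Set K)
  have hcard := hBb.cardinalMk_eq_trdeg
  rw [htr] at hcard
  obtain ⟨φ⟩ : Nonempty (Fin w ≃ B) := by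
    rw [← Cardinal.eq, Cardinal.mk_fin]
    exact hcard.symm
  set t : Fin w → K := fun i => (φ i : K) with ht
  have htb : IsTranscendenceBasis k t := hBb.comp_equiv φ
  have htH : ∀ i, t i ∈ H := fun i => hB (φ i).2
  obtain ⟨Q, hQh, hQF, hQz⟩ := hQ t htb
  obtain ⟨M₀, hM₀⟩ := hN K w C hC1 ι Q hQh hQz
  obtain ⟨T, hT⟩ : ∃ T, T = M₀ * (C' + 1) + 1 := ⟨_, rfl⟩
  obtain ⟨j, hj⟩ : ∃ j, j = w * (T + M₀) := ⟨_, rfl⟩
  obtain ⟨n, hn⟩ : ∃ n, n = M₀ + j * C := ⟨_, rfl⟩
  have hn1 : 1 ≤ n := by
    have h1 : 1 * 1 ≤ w * (T + M₀) := Nat.mul_le_mul hw (by omega)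
    have h2 : 1 * 1 ≤ j * C := Nat.mul_le_mul (by omega) hC1
    omega
  obtain ⟨N', hN', hdet⟩ := hS w n hw hn1
  obtain ⟨U, hUG, hUdet⟩ := exists_fam (n := n)
    {g | ∃ (i : Fin j → ι) (γ : Fin w →₀ ℕ), (∑ s, γ s) = M₀ ∧
      g = (∏ s, Q (i s)) * MvPolynomial.monomial γ 1} (fun f hf => hM₀ j f (by rw [← hn]; exact hf))
  choose i γ hγ hUi using hUG
  have hUhom : ∀ u, (U u).IsHomogeneous n := by
    intro u
    rw [hUi]
    have h1 : (∏ s, Q (i u s)).IsHomogeneous (∑ _s : Fin j, C) :=
      MvPolynomial.IsHomogeneous.prod _ _ _ fun s _ => hQh (i u s)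
    have h2 : (MvPolynomial.monomial (γ u) (1 : K)).IsHomogeneous M₀ := by
      apply MvPolynomial.isHomogeneous_monomial
      rw [Finsupp.degree_eq_sum]
      exact hγ u
    have h3 := h1.mul h2
    rw [Finset.sum_const, Finset.card_univ, Fintype.card_fin, smul_eq_mul, add_comm, ← hn] at h3
    exact h3
  -- many factors of each family
  have hmany : ∀ f : J, Fintype.card (Mon w n) * T ≤
      ∑ u, (Finset.univ.filter fun s => fam (i u s) = f).card := by
    intro f
    obtain ⟨D₀, hD₀, hinv⟩ := hD0 f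
    refine many_factors hS hw hC1 hj hn hn1 fam f Q hQh (fun l => D₀ (t l)) ?_ ?_ U hUdet i γ
      hγ hUi
    · intro h0
      apply hD₀
      refine der_ext t htb fun l => ?_
      exact congrFun h0 l
    · intro e he c lam
      obtain ⟨D, hD⟩ := exists_der t htb lam
      have h1 := hinv e he c D
      rw [hQF, hQF] at h1
      have h2 : (fun l => D (t l)) = lam := funext hD
      have h3 : (fun l => (D + c • D₀) (t l)) = fun l => lam l + c * D₀ (t l) := by
        funext l
        rw [Derivation.add_apply, Derivation.smul_apply, hD, smul_eq_mul]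
      rw [h2, h3] at h1
      exact h1
  -- the divisors
  let S : Place k K → ℕ := fun v => ∑ f, R f v
  let bb : Place k K → Mon w n → ℤ := fun v u =>
    if S v = 0 then 0 else (∑ s, (R (fam (i u s)) v : ℤ)) - M₀ * (C' * S v + 1)
  have hH' : ∀ v, ∀ h ∈ H, Ge v (-((C' : ℤ) * S v)) h := by
    intro v h hh
    have h1 := hH v h hh
    have h2 : (S v : ℤ) = ∑ f, (R f v : ℤ) := by
      show ((∑ f, R f v : ℕ) : ℤ) = _
      push_cast
      rfl
    rw [h2]
    exact h1
  -- values
  have hval : ∀ (v : Place k K) (D : Derivation k K K), DerReg v D → ∀ u,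
      Ge v (bb v u) (MvPolynomial.eval (fun l => D (t l)) (U u)) := by
    intro v D hD u
    rw [hUi, map_mul, map_prod, MvPolynomial.eval_monomial, one_mul,
      Finsupp.prod_fintype _ _ (fun _ => pow_zero _)]
    have h1 : Ge v (∑ s, (R (fam (i u s)) v : ℤ))
        (∏ s, MvPolynomial.eval (fun l => D (t l)) (Q (i u s))) :=
      Ge.prod (P := v) univ (fun s => MvPolynomial.eval (fun l => D (t l)) (Q (i u s)))
        (fun s => (R (fam (i u s)) v : ℤ)) (fun s _ => by rw [← hQF]; exact hF v D hD (i u s))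
    by_cases hR : S v = 0
    · have hb : bb v u = 0 := if_pos hR
      rw [hb]
      have h3 : Ge v 0 (∏ l, D (t l) ^ γ u l) := by
        have h4 := Ge.prod (P := v) univ (fun l => D (t l) ^ γ u l) (fun _ => 0) (fun l _ => by
          have h5 := hH' v (t l) (htH l)
          rw [hR, Nat.cast_zero, mul_zero, neg_zero] at h5
          have h6 : Ge v 0 (D (t l)) := hD _ h5
          have h7 := h6.pow (γ u l)
          rwa [mul_zero] at h7)
        rwa [Finset.sum_const_zero] at h4
      refine (h1.mul h3).mono ?_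
      rw [add_zero]
      exact Finset.sum_nonneg fun s _ => Int.natCast_nonneg _
    · have hb : bb v u = (∑ s, (R (fam (i u s)) v : ℤ)) - M₀ * (C' * S v + 1) := if_neg hR
      rw [hb]
      have h3 : Ge v (-(M₀ : ℤ) * (C' * S v + 1)) (∏ l, D (t l) ^ γ u l) := by
        have h4 := Ge.prod (P := v) univ (fun l => D (t l) ^ γ u l)
          (fun l => (γ u l : ℤ) * (-(C' * S v : ℕ) - 1)) (fun l _ => by
          have h5 := hH' v (t l) (htH l)
          have h6 : Ge v (-((C' * S v : ℕ) : ℤ)) (t l) := by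
            push_cast
            exact h5
          exact (ge_der hD h6).pow (γ u l))
        rw [← Finset.sum_mul] at h4
        have h5 : (∑ l, (γ u l : ℤ)) = M₀ := by exact_mod_cast hγ u
        rw [h5] at h4
        have e : (M₀ : ℤ) * (-((C' * S v : ℕ) : ℤ) - 1) = -(M₀ : ℤ) * (C' * S v + 1) := by
          push_cast
          ring
        rwa [e] at h4
      refine (h1.mul h3).mono (le_of_eq ?_)
      ring
  -- coefficients
  have hcoef : ∀ (v : Place k K) (D : Fin w → Derivation k K K), (∀ i, DerReg v (D i)) →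
      ∀ u γ, Ge v (bb v u) ((lsub (Matrix.of fun i j => D i (t j)) (U u)).coeff γ) := by
    intro v D hD u γ
    refine hC k K v w _ _ (fun c => ?_) γ
    rw [eval_lsub]
    have e : (fun j => ∑ i, (Matrix.of fun i j => D i (t j)) i j * algebraMap k K (c i)) =
        fun l => (∑ i, algebraMap k K (c i) • D i) (t l) := by
      funext l
      rw [der_sum]
      refine Finset.sum_congr rfl fun i _ => ?_
      rw [Matrix.of_apply, mul_comm]
    rw [e]
    apply hval
    intro f hf
    show Ge v 0 _
    rw [der_sum]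
    refine Ge.sum _ _ fun i _ => ?_
    have h1 := (Ge.const (P := v) (c i)).mul (hD i f hf)
    rwa [add_zero] at h1
  -- the sum of the bounds
  have hne : Nonempty (Mon w n) := by
    refine ⟨⟨Finsupp.single ⟨0, hw⟩ n, ?_⟩⟩
    rw [Finset.mem_finsuppAntidiag]
    refine ⟨?_, Finset.subset_univ _⟩
    rw [← Finsupp.degree_eq_sum, Finsupp.degree_single]
  have hcard1 : 1 ≤ Fintype.card (Mon w n) := Fintype.card_pos_iff.2 hne
  have hbb : ∀ v, (S v : ℤ) ≤ ∑ u, bb v u := by
    intro v
    by_cases hR : S v = 0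
    · have hb : ∀ u, bb v u = 0 := fun u => if_pos hR
      rw [Finset.sum_congr rfl fun u _ => hb u, Finset.sum_const_zero, hR, Nat.cast_zero]
    · have hb : ∀ u, bb v u = (∑ s, (R (fam (i u s)) v : ℤ)) - M₀ * (C' * S v + 1) :=
        fun u => if_neg hR
      have hR1 : 1 ≤ S v := Nat.one_le_iff_ne_zero.2 hR
      rw [Finset.sum_congr rfl fun u _ => hb u, Finset.sum_sub_distrib, Finset.sum_const,
        Finset.card_univ, nsmul_eq_mul]
      have h1 : ∀ u, (∑ s, (R (fam (i u s)) v : ℤ)) =
          ∑ f, (R f v : ℤ) * (Finset.univ.filter fun s => fam (i u s) = f).card := by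
        intro u
        rw [← Finset.sum_fiberwise univ (fun s => fam (i u s))
          (fun s => (R (fam (i u s)) v : ℤ))]
        refine Finset.sum_congr rfl fun f _ => ?_
        rw [Finset.sum_congr rfl fun s hs => by rw [(Finset.mem_filter.1 hs).2],
          Finset.sum_const, nsmul_eq_mul, mul_comm]
      rw [Finset.sum_congr rfl fun u _ => h1 u, Finset.sum_comm]
      have h2 : ∀ f : J, (R f v : ℤ) * (Fintype.card (Mon w n) * T) ≤
          ∑ u, (R f v : ℤ) * (Finset.univ.filter fun s => fam (i u s) = f).card := by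
        intro f
        rw [← Finset.mul_sum]
        refine mul_le_mul_of_nonneg_left ?_ (Int.natCast_nonneg _)
        exact_mod_cast hmany f
      have h3 := Finset.sum_le_sum fun f (_ : f ∈ (univ : Finset J)) => h2 f
      rw [← Finset.sum_mul] at h3
      have h4 : (∑ f, (R f v : ℤ)) = (S v : ℤ) := by
        show _ = ((∑ f, R f v : ℕ) : ℤ)
        push_cast
        rfl
      rw [h4] at h3
      have h5 : (T : ℤ) = M₀ * (C' + 1) + 1 := by
        rw [hT]
        push_cast
        rfl
      have h6 : (1 : ℤ) ≤ Fintype.card (Mon w n) := by exact_mod_cast hcard1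
      have h7 : (1 : ℤ) ≤ S v := by exact_mod_cast hR1
      have h8 : (0 : ℤ) ≤ (M₀ : ℤ) * ((S v : ℤ) - 1) :=
        mul_nonneg (Int.natCast_nonneg _) (by omega)
      have h9 : (S v : ℤ) ≤ (Fintype.card (Mon w n) : ℤ) * S v := by nlinarith
      have h10 : (S v : ℤ) * ((Fintype.card (Mon w n) : ℤ) * T) -
          (Fintype.card (Mon w n) : ℤ) * (M₀ * (C' * S v + 1)) =
          (Fintype.card (Mon w n) : ℤ) * (S v + M₀ * (S v - 1)) := by
        rw [h5]
        ring
      have h11 : (0 : ℤ) ≤ (Fintype.card (Mon w n) : ℤ) * (M₀ * (S v - 1)) :=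
        mul_nonneg (by omega) h8
      nlinarith
  have hth : ∀ (v : Place k K) (D : Fin w → Derivation k K K), (∀ i, DerReg v (D i)) →
      Ge v (S v) ((Matrix.of fun i j => D i (t j)).det ^ N' * (cmat U).det) := by
    intro v D hD
    rw [← hdet K _ U hUhom, Matrix.det_apply']
    refine Ge.sum _ _ fun σ _ => ?_
    have h1 := Ge.prod (P := v) univ (fun i => (cmat fun u =>
      lsub (Matrix.of fun i j => D i (t j)) (U u)) (σ i) i) (fun i => bb v (σ i))
      (fun i _ => hcoef v D hD (σ i) i.1)
    have h2 := (Ge.intCast (P := v) ((Equiv.Perm.sign σ : ℤˣ) : ℤ)).mul h1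
    refine h2.mono ?_
    rw [zero_add, Equiv.sum_comp σ (bb v)]
    exact hbb v
  refine ⟨htr, N' * (C' + 1), Nat.mul_pos hN' (Nat.succ_pos _),
    fun j => form t (N' * (C' + 1)) (Fin.cases ((cmat U).det ^ (C' + 1))
      (fun l => t l * (cmat U).det ^ (C' + 1)) j), fun j => form_pluri _ _ _, ?_, ?_⟩
  · intro P _ j D hD
    have h1 := (hth P D hD).pow (C' + 1)
    refine Fin.cases ?_ (fun l => ?_) j
    · show Ge P 0 (form t (N' * (C' + 1)) ((cmat U).det ^ (C' + 1)) D)
      unfold form
      have e : (cmat U).det ^ (C' + 1) * (Matrix.of fun i j => D i (t j)).det ^ (N' * (C' + 1)) =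
          ((Matrix.of fun i j => D i (t j)).det ^ N' * (cmat U).det) ^ (C' + 1) := by
        rw [mul_pow, ← pow_mul, mul_comm]
      rw [e]
      refine h1.mono ?_
      positivity
    · show Ge P 0 (form t (N' * (C' + 1)) (t l * (cmat U).det ^ (C' + 1)) D)
      unfold form
      have e : t l * (cmat U).det ^ (C' + 1) *
          (Matrix.of fun i j => D i (t j)).det ^ (N' * (C' + 1)) =
          t l * ((Matrix.of fun i j => D i (t j)).det ^ N' * (cmat U).det) ^ (C' + 1) := by
        rw [mul_pow, ← pow_mul]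
        ring
      rw [e]
      refine ((hH' P (t l) (htH l)).mul h1).mono ?_
      push_cast
      nlinarith [Int.natCast_nonneg (S P)]
  · obtain ⟨D, hD⟩ := exists_dual htb
    have hf : ∀ g, form t (N' * (C' + 1)) g D = g := fun g => by
      unfold form
      rw [hD, Matrix.det_one, one_pow, mul_one]
    have h0 : (cmat U).det ^ (C' + 1) ≠ 0 := pow_ne_zero _ hUdet
    refine ⟨D, ?_, ?_⟩
    · show form t (N' * (C' + 1)) ((cmat U).det ^ (C' + 1)) D ≠ 0
      rw [hf]
      exact h0
    · have e : (fun i : Fin w => form t (N' * (C' + 1)) (Fin.cases ((cmat U).det ^ (C' + 1))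
          (fun l => t l * (cmat U).det ^ (C' + 1)) i.succ : K) D /
          form t (N' * (C' + 1)) ((cmat U).det ^ (C' + 1)) D) = t := by
        funext l
        rw [hf, hf]
        show t l * (cmat U).det ^ (C' + 1) / (cmat U).det ^ (C' + 1) = t l
        rw [mul_div_cancel_right₀ _ h0]
      show AlgebraicIndependent k (fun i : Fin w => form t (N' * (C' + 1))
        (Fin.cases ((cmat U).det ^ (C' + 1)) (fun l => t l * (cmat U).det ^ (C' + 1)) i.succ : K)
          D / form t (N' * (C' + 1)) ((cmat U).det ^ (C' + 1)) D)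
      rw [e]
      exact htb.1

end Pool.Agent.J6H55.JM
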