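import Pool.Agent.J6H55.JM.Var
import Pool.Agent.Q53.EC.Pic
import Pool.Agent.Q103.EC.All

/-!
# Varieties carrying several maps with stable sets: punctured discs

The proof is that of `Pool.Agent.Q53.EC.t_pic` (one map) with `var_joint`.
-/

set_option autoImplicit false
set_option linter.overlappingInstances false
set_option linter.unusedSectionVars false

namespace Pool.Agent.J6H55.JM

open Polynomial FF Filter IntermediateField
open Pool.Agent.W602.GT Pool.Agent.W603.BP Metric Topology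
open Pool.Agent.Q41.SU
open Pool.Agent.Q41.GT
open Pool.Agent.TH466.QG
open Pool.Agent.Y221.AP
open Pool.Agent.Y221.PD
open Pool.Agent.Q103.EC
open Pool.Agent.Q53.EC (minf_of_alg_adjoin)

theorem pic_joint : ∃ B : ℕ → ℕ, ∀ (K : Type) [Field K] [Algebra ℂ K] (M : ℕ)
    (x : Fin (M + 1) → K), x ≠ 0 → coords ℂ x = ⊤ → ∀ (J : Type) [Fintype J] (d : J → ℕ)
    (p q : J → K[X]) (P : J → Finset K), (∀ f, 2 ≤ d f) →
    (∀ f, Dat ℂ (d f) (p f) (q f) (P f)) → (∀ f, B (d f) ≤ (P f).card) →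
    Algebra.IsAlgebraic (IntermediateField.adjoin ℂ (⋃ f, crs (P f))) K →
    PseudoPicard x := by
  classical
  choose B hB using b_mer
  refine ⟨fun d => if h : 2 ≤ d then B d h else 0, ?_⟩
  intro K _ _ M x hx hgen J _ d p q P hd hdat hcard halg
  obtain ⟨R, hR, hxR, hmain⟩ := var_joint hx hgen (fun f => le_trans (by omega) (hd f)) hdat halg
  refine ⟨R, hR, hxR, ?_⟩
  intro f hf t0 ht0
  by_contra hft
  have hfan : ∀ i, AnalyticOnNhd ℂ (fun w => f w i) (PB 1) := by
    intro i w hw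
    exact (hf.hol i).analyticAt (disc_open.mem_nhds (mem_disc.mpr hw))
  have hinvPB : ∀ {z : ℂ}, z ∈ Om → z⁻¹ ∈ PB 1 := by
    intro z hz
    exact inv_mem_PB one_pos (by rwa [inv_one])
  have hPBinv : ∀ {w : ℂ}, w ∈ PB 1 → w⁻¹ ∈ Om := by
    intro w hw
    have := inv_mem_Ext hw
    rwa [inv_one] at this
  have hOm0 : ∀ {z : ℂ}, z ∈ Om → z ≠ 0 := by
    intro z hz h0
    have h1 : (1 : ℝ) < ‖z‖ := hz
    rw [h0, norm_zero] at h1
    linarith
  obtain ⟨f', hf'⟩ : ∃ f' : Fin (M + 1) → ℂ → ℂ, ∀ i z, f' i z = f z⁻¹ i := ⟨_, fun _ _ => rfl⟩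
  have hf'an : ∀ i, ∀ z ∈ Om, AnalyticAt ℂ (f' i) z := by
    intro i z hz
    have h1 : f' i = (fun w => f w i) ∘ fun z => z⁻¹ := by
      funext v
      exact hf' i v
    rw [h1]
    exact AnalyticAt.comp (hfan i _ (hinvPB hz)) (analyticAt_inv (hOm0 hz))
  have hmer : ∀ i, MeromorphicOn (f' i) Om := fun i z hz => (hf'an i z hz).meromorphicAt
  obtain ⟨z, hzdef⟩ : ∃ z : Fin (M + 1) → MK, z = fun i => cl (f' i) (hmer i) := ⟨_, rfl⟩
  have hcont : ∀ G : MvPolynomial (Fin (M + 1)) ℂ, ∀ t ∈ Om,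
      ContinuousAt (fun t => MvPolynomial.eval (fun i => f' i t) G) t := fun G t ht =>
    (MvPolynomial.continuous_eval G).continuousAt.comp
      (continuousAt_pi.2 fun i => (hf'an i t ht).continuousAt)
  have hvz : ∀ G, val z G = 0 ↔ ∀ t ∈ Om, MvPolynomial.eval (fun i => f' i t) G = 0 := by
    intro G
    rw [hzdef, val_cl hmer G, cl_eq_zero]
    constructor
    · intro h t ht
      exact eq_of_cod (g := fun _ => 0) h ht (hcont G t ht) continuousAt_const
    · intro h
      filter_upwards [cod_Om] with t ht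
      exact h t ht
  have hevf : ∀ (G : MvPolynomial (Fin (M + 1)) ℂ) (t : ℂ),
      MvPolynomial.eval (fun i => f' i t) G = MvPolynomial.eval (f t⁻¹) G := by
    intro G t
    have h1 : (fun i => f' i t) = f t⁻¹ := by
      funext i
      rw [hf']
    rw [h1]
  have hzR : val z R ≠ 0 := by
    intro h0
    apply hft
    have h1 := (hvz _).1 h0 t0⁻¹ (hPBinv (mem_disc.1 ht0))
    rw [hevf, inv_inv] at h1
    exact h1
  have hspec : ∀ G : MvPolynomial (Fin (M + 1)) ℂ, IsForm G → val x G = 0 → val z G = 0 := by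
    intro G hGf hG
    rw [hvz]
    intro t ht
    rw [hevf]
    exact hf.mem _ hGf hG _ (mem_disc.2 (hinvPB ht))
  obtain ⟨p', q', P', hdat', hcard', hal⟩ := hmain MK z hspec hzR
  have hminf : ∀ c ∈ (⋃ g, crs (P' g)), MInf c := by
    intro c hc
    obtain ⟨g, hcg⟩ := Set.mem_iUnion.1 hc
    have h1 : (if h : 2 ≤ d g then B (d g) h else 0) ≤ (P g).card := hcard g
    rw [dif_pos (hd g)] at h1
    exact hB (d g) (hd g) (p' g) (q' g) (hdat' g).deg_p (hdat' g).deg_q (hdat' g).coprime (P' g)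
      (hdat' g).stab (by rw [hcard' g]; exact h1) c hcg
  apply hf.ess
  refine extends_of f hfan (fun w hw => hf.ne w (mem_disc.2 hw)) fun j k hj hk => ?_
  have hzk : z k ≠ 0 := by
    intro h0
    apply hk
    rw [hzdef] at h0
    have h1 := cl_eq_zero.1 h0
    filter_upwards [PB_mem one_pos] with w hw
    have h2 := eq_of_cod (g := fun _ => 0) h1 (hPBinv hw) (hf'an k _ (hPBinv hw)).continuousAt
      continuousAt_const
    rw [hf', inv_inv] at h2
    exact h2
  have hjk : MInf (z j / z k) := minf_of_alg_adjoin hminf (hal j k hzk)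
  refine ⟨fun w => Fn (z j / z k) w⁻¹, hjk, ?_⟩
  have h1 : cl (f' j) (hmer j) = cl (fun t => Fn (z j / z k) t * f' k t)
      ((Fn_mero _).mul (hmer k)) := by
    have h2 : cl (f' j) (hmer j) = z j := by rw [hzdef]
    have h3 : cl (f' k) (hmer k) = z k := by rw [hzdef]
    have h4 : cl (fun t => Fn (z j / z k) t * f' k t) ((Fn_mero _).mul (hmer k)) =
        cl (Fn (z j / z k)) (Fn_mero _) * cl (f' k) (hmer k) := rfl
    rw [h4, h2, h3, cl_Fn, div_mul_cancel₀ _ hzk]
  rw [cl_eq] at h1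
  filter_upwards [hjk.reg, PB_mem one_pos] with w hw1 hw2
  have hwO := hPBinv hw2
  have h2 := eq_of_cod (f := f' j) (g := fun t => Fn (z j / z k) t * f' k t) h1 hwO
    (hf'an j _ hwO).continuousAt (hw1.continuousAt.mul (hf'an k _ hwO).continuousAt)
  rw [hf', hf', inv_inv] at h2
  exact h2

end Pool.Agent.J6H55.JM
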