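import Pool.Agent.Q92.GT.K4

/-!
# Several families of symmetric forms: combinatorics

Products of `j` forms from several families and of a monomial of degree `M₀` which are a basis of the
forms of degree `n` contain many factors of each family `f`, if the forms of the other families do not
depend on one linear coordinate.
-/

set_option autoImplicit false

namespace Pool.Agent.J6H55.JM

open Finset
open Pool.Agent.Q41.GT (Mon cmat lsub S_sym)

section

variable {K : Type} [Field K] {w : ℕ}

/-- the sum of the exponents of a variable over all monomials does not depend on the variable -/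
theorem sum_exp {n : ℕ} (l l' : Fin w) :
    ∑ u : Mon w n, u.1 l = ∑ u : Mon w n, u.1 l' := by
  classical
  let σ : Equiv.Perm (Fin w) := Equiv.swap l l'
  have key : ∀ (u : Fin w →₀ ℕ) (i : Fin w), u.mapDomain σ i = u (σ i) := by
    intro u i
    have h1 : i = σ (σ i) := (Equiv.swap_apply_self l l' i).symm
    conv_lhs => rw [h1]
    exact Finsupp.mapDomain_apply σ.injective _ _
  let τ : Mon w n → Mon w n := fun u => ⟨u.1.mapDomain σ, by
    have h := Finset.mem_finsuppAntidiag.1 u.2
    rw [Finset.mem_finsuppAntidiag]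
    refine ⟨Eq.trans ?_ h.1, Finset.subset_univ _⟩
    rw [Finset.sum_congr rfl fun i _ => key u.1 i]
    exact Equiv.sum_comp σ u.1⟩
  have hτ : ∀ u : Mon w n, ∀ i, (τ u).1 i = u.1 (σ i) := fun u i => key u.1 i
  have hττ : Function.Involutive τ := by
    intro u
    apply Subtype.ext
    ext i
    rw [hτ, hτ, Equiv.swap_apply_self]
  refine Fintype.sum_equiv hττ.toPerm _ _ fun u => ?_
  show u.1 l = (τ u).1 l'
  rw [hτ, Equiv.swap_apply_right]

theorem sum_exp_mul {n : ℕ} (l : Fin w) :
    w * ∑ u : Mon w n, u.1 l = Fintype.card (Mon w n) * n := by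
  classical
  have h1 : ∑ l' : Fin w, ∑ u : Mon w n, u.1 l' = w * ∑ u : Mon w n, u.1 l := by
    rw [Finset.sum_congr rfl fun l' _ => sum_exp l' l, Finset.sum_const, Finset.card_univ,
      Fintype.card_fin, smul_eq_mul]
  rw [← h1, Finset.sum_comm, Finset.sum_congr rfl fun u _ =>
    (Finset.mem_finsuppAntidiag.1 u.2).1, Finset.sum_const, Finset.card_univ, smul_eq_mul]

/-- a polynomial whose values do not depend on one coordinate -/
theorem degreeOf_zero [Infinite K] (l : Fin w) (P : MvPolynomial (Fin w) K)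
    (h : ∀ c : Fin w → K, MvPolynomial.eval c P = MvPolynomial.eval (Function.update c l 0) P) :
    MvPolynomial.degreeOf l P = 0 := by
  classical
  have h1 : P = MvPolynomial.bind₁ (fun i => if i = l then 0 else MvPolynomial.X i) P := by
    apply MvPolynomial.funext
    intro c
    rw [h c]
    have h2 := MvPolynomial.eval₂Hom_bind₁ (RingHom.id K) c
      (fun i => if i = l then 0 else MvPolynomial.X i) P
    have h3 : MvPolynomial.eval c (MvPolynomial.bind₁
        (fun i => if i = l then 0 else MvPolynomial.X i) P) =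
        MvPolynomial.eval (fun i => MvPolynomial.eval c
          (if i = l then (0 : MvPolynomial (Fin w) K) else MvPolynomial.X i)) P := h2
    rw [h3]
    congr 2
    funext i
    by_cases hi : i = l
    · rw [hi, Function.update_self, if_pos rfl, map_zero]
    · rw [Function.update_of_ne hi, if_neg hi, MvPolynomial.eval_X]
  have h2 : l ∉ P.vars := by
    intro hl
    rw [h1] at hl
    obtain ⟨i, -, hi⟩ := MvPolynomial.mem_vars_bind₁ _ _ hl
    by_cases hil : i = l
    · rw [if_pos hil] at hi
      simp at hi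
    · rw [if_neg hil, MvPolynomial.vars_X, Finset.mem_singleton] at hi
      exact hil hi.symm
  rw [MvPolynomial.degreeOf_eq_sup]
  apply Nat.eq_zero_of_le_zero
  apply Finset.sup_le
  intro m hm
  by_contra hne
  exact h2 (MvPolynomial.mem_vars_iff_mem_support l |>.2 ⟨m, hm, by
    rw [Finsupp.mem_support_iff]
    omega⟩)

/-- the identity matrix with one row replaced -/
noncomputable def rowMat (l : Fin w) (μ : Fin w → K) : Matrix (Fin w) (Fin w) K := by
  classical
  exact (1 : Matrix (Fin w) (Fin w) K).updateRow l μ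

theorem rowMat_det (l : Fin w) (μ : Fin w → K) : (rowMat l μ).det = μ l := by
  classical
  unfold rowMat
  rw [← Matrix.cramer_transpose_apply, Matrix.transpose_one, Matrix.cramer_one]
  rfl

theorem rowMat_self (l : Fin w) (μ : Fin w → K) (j : Fin w) : rowMat l μ l j = μ j := by
  classical
  unfold rowMat
  rw [Matrix.updateRow_self]

theorem rowMat_ne {l i : Fin w} (h : i ≠ l) (μ : Fin w → K) (j : Fin w) :
    rowMat l μ i j = if i = j then 1 else 0 := by
  classical
  unfold rowMat
  rw [Matrix.updateRow_ne h, Matrix.one_apply]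

theorem eval_lsub (A : Matrix (Fin w) (Fin w) K) (c : Fin w → K) (Q : MvPolynomial (Fin w) K) :
    MvPolynomial.eval c (lsub A Q) = MvPolynomial.eval (fun j => ∑ i, A i j * c i) Q := by
  unfold lsub
  show MvPolynomial.eval₂Hom (RingHom.id K) c (MvPolynomial.bind₁ _ _) = _
  rw [MvPolynomial.eval₂Hom_bind₁]
  show MvPolynomial.eval _ Q = _
  congr 2
  funext j
  show MvPolynomial.eval c _ = _
  rw [map_sum]
  refine Finset.sum_congr rfl fun i _ => ?_
  rw [map_mul, MvPolynomial.eval_C, MvPolynomial.eval_X]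

/-- forms which are invariant under translation in the direction `μ` -/
theorem degreeOf_lsub [Infinite K] (l : Fin w) (μ : Fin w → K) (Q : MvPolynomial (Fin w) K)
    (h : ∀ (c : K) (lam : Fin w → K), MvPolynomial.eval (fun j => lam j + c * μ j) Q =
      MvPolynomial.eval lam Q) :
    MvPolynomial.degreeOf l (lsub (rowMat l μ) Q) = 0 := by
  classical
  refine degreeOf_zero l _ fun c => ?_
  rw [eval_lsub, eval_lsub]
  have h1 : ∀ c : Fin w → K, (fun j => ∑ i, rowMat l μ i j * c i) =
      fun j => (if j = l then 0 else c j) + c l * μ j := by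
    intro c
    funext j
    rw [← Finset.add_sum_erase univ _ (Finset.mem_univ l), rowMat_self, add_comm, mul_comm (μ j)]
    congr 1
    rw [Finset.sum_congr rfl fun i hi => by
      rw [rowMat_ne (Finset.ne_of_mem_erase hi), ite_mul, one_mul, zero_mul]]
    by_cases hj : j = l
    · rw [if_pos hj]
      refine Finset.sum_eq_zero fun i hi => ?_
      rw [if_neg]
      intro h2
      exact (Finset.ne_of_mem_erase hi) (h2.trans hj)
    · rw [if_neg hj, Finset.sum_ite_eq' , if_pos]
      exact Finset.mem_erase.2 ⟨hj, Finset.mem_univ _⟩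
  rw [h1, h1, h, h]
  congr 2
  funext j
  by_cases hj : j = l
  · rw [if_pos hj, if_pos hj]
  · rw [if_neg hj, if_neg hj, Function.update_of_ne hj]

theorem lsub_mul (A : Matrix (Fin w) (Fin w) K) (P Q : MvPolynomial (Fin w) K) :
    lsub A (P * Q) = lsub A P * lsub A Q := by
  unfold lsub
  exact map_mul _ _ _

theorem lsub_prod (A : Matrix (Fin w) (Fin w) K) {ι : Type} (s : Finset ι)
    (P : ι → MvPolynomial (Fin w) K) : lsub A (∏ i ∈ s, P i) = ∏ i ∈ s, lsub A (P i) := by
  unfold lsub
  exact map_prod _ _ _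

theorem lsub_hom (A : Matrix (Fin w) (Fin w) K) {Q : MvPolynomial (Fin w) K} {C : ℕ}
    (hQ : Q.IsHomogeneous C) : (lsub A Q).IsHomogeneous C := by
  unfold lsub
  have h := hQ.aeval (fun j => ∑ i, MvPolynomial.C (A i j) * MvPolynomial.X i) (n := 1)
    (fun j => by
      refine MvPolynomial.IsHomogeneous.sum _ _ _ fun i _ => ?_
      have h3 := (MvPolynomial.isHomogeneous_C (Fin w) (A i j)).mul
        (MvPolynomial.isHomogeneous_X K i)
      rwa [zero_add] at h3)
  rwa [one_mul] at h

theorem degreeOf_hom {Q : MvPolynomial (Fin w) K} {C : ℕ} (hQ : Q.IsHomogeneous C) (l : Fin w) :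
    MvPolynomial.degreeOf l Q ≤ C :=
  (MvPolynomial.degreeOf_le_totalDegree Q l).trans hQ.totalDegree_le

/-- **Many factors of each family.** -/
theorem many_factors [Infinite K] (hS : S_sym) {C M₀ T j n : ℕ} (hw : 1 ≤ w) (hC : 1 ≤ C)
    (hj : j = w * (T + M₀)) (hn : n = M₀ + j * C) (hn1 : 1 ≤ n) {J ι : Type} [DecidableEq J]
    (fam : ι → J) (f : J) (Q : ι → MvPolynomial (Fin w) K) (hQ : ∀ i, (Q i).IsHomogeneous C)
    (μ : Fin w → K) (hμ : μ ≠ 0)
    (hinv : ∀ i, fam i ≠ f → ∀ (c : K) (lam : Fin w → K),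
      MvPolynomial.eval (fun j => lam j + c * μ j) (Q i) = MvPolynomial.eval lam (Q i))
    (U : Mon w n → MvPolynomial (Fin w) K) (hU : (cmat U).det ≠ 0) (i : Mon w n → Fin j → ι)
    (γ : Mon w n → (Fin w →₀ ℕ)) (hγ : ∀ u, ∑ s, γ u s = M₀)
    (hUi : ∀ u, U u = (∏ s, Q (i u s)) * MvPolynomial.monomial (γ u) 1) :
    Fintype.card (Mon w n) * T ≤
      ∑ u, (Finset.univ.filter fun s => fam (i u s) = f).card := by
  classical
  obtain ⟨l, hl'⟩ := Function.ne_iff.1 hμ
  have hl : μ l ≠ 0 := hl'
  obtain ⟨N', hN', hdet⟩ := hS w n hw hn1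
  have hmon : ∀ u, (MvPolynomial.monomial (γ u) (1 : K)).IsHomogeneous M₀ := by
    intro u
    apply MvPolynomial.isHomogeneous_monomial
    rw [Finsupp.degree_eq_sum]
    exact hγ u
  have hUhom : ∀ u, (U u).IsHomogeneous n := by
    intro u
    rw [hUi]
    have h1 : (∏ s, Q (i u s)).IsHomogeneous (∑ _s : Fin j, C) :=
      MvPolynomial.IsHomogeneous.prod _ _ _ fun s _ => hQ (i u s)
    have h3 := h1.mul (hmon u)
    rw [Finset.sum_const, Finset.card_univ, Fintype.card_fin, smul_eq_mul, add_comm, ← hn] at h3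
    exact h3
  have h1 : (cmat fun u => lsub (rowMat l μ) (U u)).det ≠ 0 := by
    rw [hdet K _ U hUhom, rowMat_det]
    exact mul_ne_zero (pow_ne_zero _ hl) hU
  -- a permutation
  obtain ⟨σ, hσ⟩ : ∃ σ : Equiv.Perm (Mon w n),
      ∏ u, (cmat fun u => lsub (rowMat l μ) (U u)) (σ u) u ≠ 0 := by
    by_contra hc
    push Not at hc
    apply h1
    rw [Matrix.det_apply]
    refine Finset.sum_eq_zero fun σ _ => ?_
    rw [hc σ, smul_zero]
  have h2 : ∀ u : Mon w n, u.1 l ≤
      C * (Finset.univ.filter fun s => fam (i (σ u) s) = f).card + M₀ := by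
    intro u
    have h3 : (lsub (rowMat l μ) (U (σ u))).coeff u.1 ≠ 0 :=
      Finset.prod_ne_zero_iff.1 hσ u (Finset.mem_univ _)
    have h4 : u.1 l ≤ MvPolynomial.degreeOf l (lsub (rowMat l μ) (U (σ u))) :=
      MvPolynomial.monomial_le_degreeOf l (MvPolynomial.mem_support_iff.2 h3)
    refine h4.trans ?_
    rw [hUi, lsub_mul, lsub_prod]
    refine (MvPolynomial.degreeOf_mul_le _ _ _).trans ?_
    refine Nat.add_le_add ((MvPolynomial.degreeOf_prod_le _ _ _).trans ?_)
      (degreeOf_hom (lsub_hom _ (hmon _)) l)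
    have h5 : ∀ s : Fin j, MvPolynomial.degreeOf l (lsub (rowMat l μ) (Q (i (σ u) s))) ≤
        if fam (i (σ u) s) = f then C else 0 := by
      intro s
      by_cases hs : fam (i (σ u) s) = f
      · rw [if_pos hs]
        exact degreeOf_hom (lsub_hom _ (hQ _)) l
      · rw [if_neg hs]
        exact (degreeOf_lsub l μ _ (hinv _ hs)).le
    refine (Finset.sum_le_sum fun s _ => h5 s).trans ?_
    rw [← Finset.sum_filter, Finset.sum_const, smul_eq_mul, mul_comm]
  have h3 : ∑ u : Mon w n, u.1 l ≤
      C * ∑ u, (Finset.univ.filter fun s => fam (i u s) = f).card +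
        Fintype.card (Mon w n) * M₀ := by
    refine (Finset.sum_le_sum fun u _ => h2 u).trans ?_
    rw [Finset.sum_add_distrib, Finset.sum_const, Finset.card_univ, smul_eq_mul, ← Finset.mul_sum]
    refine Nat.add_le_add_right (Nat.mul_le_mul_left _ (le_of_eq ?_)) _
    exact Equiv.sum_comp σ fun u => (Finset.univ.filter fun s => fam (i u s) = f).card
  have h4 := sum_exp_mul (n := n) l
  set m := Fintype.card (Mon w n) with hm
  set S := ∑ u, (Finset.univ.filter fun s => fam (i u s) = f).card with hSdef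
  have h5 : m * n ≤ w * (C * S + m * M₀) := by
    rw [← h4]
    exact Nat.mul_le_mul_left _ h3
  rw [hn, hj] at h5
  have h6 : w * C * (m * T) ≤ w * C * S := by
    have e1 : m * (M₀ + w * (T + M₀) * C) = m * M₀ + w * C * (m * T) + w * C * (m * M₀) := by ring
    have e2 : w * (C * S + m * M₀) = w * C * S + w * (m * M₀) := by ring
    rw [e1, e2] at h5
    have h7 : w * (m * M₀) ≤ w * C * (m * M₀) := by
      refine Nat.mul_le_mul_right _ ?_
      calc w = w * 1 := (mul_one w).symm
        _ ≤ w * C := Nat.mul_le_mul_left _ hC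
    omega
  exact Nat.le_of_mul_le_mul_left h6 (Nat.mul_pos hw hC)

end

end Pool.Agent.J6H55.JM
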