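import Pool.Agent.Q149.EC.Spec

/-!
# Specialization of a map with its points

The theorem `Pool.Agent.Q149.EC.spm` with two more conclusions: the points of `P` specialize to the points
of `P'`. (The proof is the same.)
-/

set_option autoImplicit false

open Polynomial

namespace Pool.Agent.J6H55.JM

open Pool.Agent.TH466.QG (Sp graph exists_den)
open Pool.Agent.Q41.GT (crs)
open Pool.Agent.Q41.SU (Stab)
open Pool.Agent.Q149.EC

/-- **EC-C2.** Specialization of a map with its points. -/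
theorem spm' {k K : Type} [Field k] [Field K] [Algebra k K] {d : ℕ} {p q : K[X]} 
    (hp : p.natDegree ≤ d) (hq : q.natDegree = d) (hpq : IsCoprime p q) (hd : 1 ≤ d)
    {P : Finset K} (hP : Stab p q P) :
    ∃ Θ : Set K, Θ.Finite ∧ ∀ (E : Type) [Field E] [Algebra k E] (S : Sp k K E),
      (∀ ϑ ∈ Θ, ∃ t, S.T ϑ t) → ∃ (p' q' : E[X]) (P' : Finset E), p'.natDegree ≤ d ∧
        q'.natDegree = d ∧ IsCoprime p' q' ∧ Stab p' q' P' ∧ P'.card = P.card ∧
        (∀ z ∈ P, ∃ z' ∈ P', S.T z z') ∧ (∀ z' ∈ P', ∃ z ∈ P, S.T z z') ∧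
        (∀ c ∈ crs P, ∃ c' ∈ crs P', S.T c c') ∧ ∀ c' ∈ crs P', ∃ c ∈ crs P, S.T c c' := by
  classical
  obtain ⟨u, v, huv⟩ := hpq
  refine ⟨(↑p.coeffs : Set K) ∪ ↑q.coeffs ∪ ↑u.coeffs ∪ ↑v.coeffs ∪ {q.leadingCoeff⁻¹} ∪ ↑P ∪
    ↑((P ×ˢ P).image fun t => (t.1 - t.2)⁻¹) ∪ ↑(P.image fun z => (q.eval z)⁻¹), ?_, ?_⟩
  · refine Set.Finite.union (Set.Finite.union (Set.Finite.union (Set.Finite.union (Set.Finite.union
      (Set.Finite.union (Set.Finite.union ?_ ?_) ?_) ?_) ?_) ?_) ?_) ?_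
    · exact Finset.finite_toSet _
    · exact Finset.finite_toSet _
    · exact Finset.finite_toSet _
    · exact Finset.finite_toSet _
    · exact Set.finite_singleton _
    · exact Finset.finite_toSet _
    · exact Finset.finite_toSet _
    · exact Finset.finite_toSet _
  intro E _ _ S hS
  have hco : ∀ r : K[X], (∀ c ∈ r.coeffs, c ∈ dom S) → ∃ r₀ : (dom S)[X],
      r₀.map (algebraMap (dom S) K) = r := by
    intro r hr
    refine (lifts_iff_coeff_lifts r).2 fun i => ?_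
    by_cases h0 : r.coeff i = 0
    · rw [h0]
      exact ⟨0, map_zero _⟩
    · exact ⟨⟨_, hr _ (coeff_mem_coeffs h0)⟩, rfl⟩
  obtain ⟨p₀, hp₀⟩ := hco p fun c hc => hS c (by
    simp only [Set.mem_union, Finset.mem_coe]; tauto)
  obtain ⟨q₀, hq₀⟩ := hco q fun c hc => hS c (by
    simp only [Set.mem_union, Finset.mem_coe]; tauto)
  obtain ⟨u₀, hu₀⟩ := hco u fun c hc => hS c (by
    simp only [Set.mem_union, Finset.mem_coe]; tauto)
  obtain ⟨v₀, hv₀⟩ := hco v fun c hc => hS c (by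
    simp only [Set.mem_union, Finset.mem_coe]; tauto)
  have hlead : q.leadingCoeff⁻¹ ∈ dom S := hS _ (by
    simp only [Set.mem_union, Finset.mem_coe, Set.mem_singleton_iff]; tauto)
  have hPd : ∀ z ∈ P, z ∈ dom S := fun z hz => hS _ (by
    simp only [Set.mem_union, Finset.mem_coe]; tauto)
  have hPd2 : ∀ z ∈ P, ∀ z' ∈ P, (z - z')⁻¹ ∈ dom S := fun z hz z' hz' => hS _ (by
    have h1 : (z - z')⁻¹ ∈ (P ×ˢ P).image fun t => (t.1 - t.2)⁻¹ :=
      Finset.mem_image.2 ⟨(z, z'), Finset.mem_product.2 ⟨hz, hz'⟩, rfl⟩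
    simp only [Set.mem_union, Finset.mem_coe]; tauto)
  have hPd3 : ∀ z ∈ P, (q.eval z)⁻¹ ∈ dom S := fun z hz => hS _ (by
    have h1 : (q.eval z)⁻¹ ∈ P.image fun z => (q.eval z)⁻¹ := Finset.mem_image_of_mem _ hz
    simp only [Set.mem_union, Finset.mem_coe]; tauto)
  let ι := algebraMap (dom S) K
  have hι : Function.Injective ι := Subtype.val_injective
  let τ := shom S
  have hev : ∀ (r : (dom S)[X]) (z : dom S), (r.map ι).eval (z : K) = ((r.eval z : dom S) : K) :=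
    fun r z => by
      rw [eval_map]
      exact eval₂_at_apply ι z
  have hev' : ∀ (r : (dom S)[X]) (z : dom S), (r.map τ).eval (τ z) = τ (r.eval z) :=
    fun r z => by rw [eval_map, eval₂_at_apply]
  subst hp₀ hq₀ hu₀ hv₀
  have hqd : q₀.natDegree = d := by
    rw [← hq]
    exact (natDegree_map_eq_of_injective hι q₀).symm
  have hpd : p₀.natDegree ≤ d := by
    rw [← natDegree_map_eq_of_injective hι p₀]
    exact hp
  have hq00 : q₀.map ι ≠ 0 := by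
    rintro h0
    change (q₀.map ι).natDegree = d at hq
    rw [h0, natDegree_zero] at hq
    omega
  let P₀ : Finset (dom S) := P.subtype (· ∈ dom S)
  have hPm : ∀ z : dom S, z ∈ P₀ ↔ (z : K) ∈ P := fun z => Finset.mem_subtype
  have hτne : ∀ z ∈ P₀, ∀ z' ∈ P₀, z ≠ z' → τ z - τ z' ≠ 0 := by
    intro z hz z' hz' hne
    rw [← map_sub]
    refine shom_ne S _ (hPd2 _ ((hPm z).1 hz) _ ((hPm z').1 hz')) ?_
    change (z : K) - z' ≠ 0
    rw [sub_ne_zero]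
    exact fun h => hne (Subtype.ext h)
  have hinj : Set.InjOn τ P₀ := by
    intro z hz z' hz' h
    by_contra hne
    exact hτne z hz z' hz' hne (sub_eq_zero.2 h)
  have hcrs : ∀ x0 ∈ P₀, ∀ x1 ∈ P₀, ∀ x2 ∈ P₀, ∀ x ∈ P₀, x0 ≠ x1 → x ≠ x2 →
      S.T ((((x : K) - x0) * (x1 - x2)) / ((x - x2) * (x1 - x0)))
        (((τ x - τ x0) * (τ x1 - τ x2)) / ((τ x - τ x2) * (τ x1 - τ x0))) := by
    intro x0 h0 x1 h1 x2 h2 x hx e1 e2
    have h3 := shom_div S ((x - x0) * (x1 - x2)) ((x - x2) * (x1 - x0)) (by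
      have h4 := mul_mem (hPd2 _ ((hPm _).1 hx) _ ((hPm _).1 h2))
        (hPd2 _ ((hPm _).1 h1) _ ((hPm _).1 h0))
      rw [← mul_inv] at h4
      exact h4) (by
      refine mul_ne_zero (sub_ne_zero.2 fun h => e2 (Subtype.ext h))
        (sub_ne_zero.2 fun h => e1 (Subtype.ext h.symm)))
    rw [map_mul, map_mul, map_sub, map_sub, map_sub, map_sub] at h3
    exact h3
  refine ⟨p₀.map τ, q₀.map τ, P₀.image τ, natDegree_map_le.trans hpd, ?_, ?_, ?_, ?_, ?_, ?_,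
    ?_, ?_⟩
  · refine le_antisymm (natDegree_map_le.trans hqd.le) (le_natDegree_of_ne_zero ?_)
    rw [coeff_map]
    have h1 : ((q₀.coeff d : dom S) : K) = (q₀.map ι).leadingCoeff := by
      rw [leadingCoeff, show (q₀.map ι).natDegree = d from hq, coeff_map]
      rfl
    refine shom_ne S _ ?_ ?_
    · rw [h1]
      exact hlead
    · rw [h1]
      exact leadingCoeff_ne_zero.2 hq00
  · refine ⟨u₀.map τ, v₀.map τ, ?_⟩
    have h1 : u₀ * p₀ + v₀ * q₀ = 1 := by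
      apply map_injective ι hι
      rw [Polynomial.map_add, Polynomial.map_mul, Polynomial.map_mul, Polynomial.map_one]
      exact huv
    rw [← Polynomial.map_mul, ← Polynomial.map_mul, ← Polynomial.map_add, h1, Polynomial.map_one]
  · intro z' hz'
    obtain ⟨z, hz, rfl⟩ := Finset.mem_image.1 hz'
    obtain ⟨h1, h2⟩ := hP _ ((hPm z).1 hz)
    have h3 := hPd3 _ ((hPm z).1 hz)
    change (eval (z : K) (q₀.map ι))⁻¹ ∈ dom S at h3
    change eval (z : K) (q₀.map ι) ≠ 0 at h1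
    change eval (z : K) (p₀.map ι) / eval (z : K) (q₀.map ι) ∈ P at h2
    rw [hev] at h1 h3
    rw [hev, hev] at h2
    have h4 := shom_ne S _ h3 h1
    rw [hev', hev']
    refine ⟨h4, ?_⟩
    have h5 := shom_div S (p₀.eval z) (q₀.eval z) h3 h1
    have h6 := hPd _ h2
    have h7 : τ ⟨_, h6⟩ = τ (p₀.eval z) / τ (q₀.eval z) := sv_eq S ⟨_, h6⟩ h5
    rw [← h7]
    exact Finset.mem_image_of_mem _ ((hPm _).2 h2)
  · rw [Finset.card_image_of_injOn hinj]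
    have e1 : P = P₀.image ι := by
      ext z
      rw [Finset.mem_image]
      constructor
      · intro hz
        exact ⟨⟨z, hPd z hz⟩, (hPm _).2 hz, rfl⟩
      · rintro ⟨z₀, hz, rfl⟩
        exact (hPm z₀).1 hz
    rw [e1, Finset.card_image_of_injective _ hι]
  · intro z hz
    exact ⟨_, Finset.mem_image_of_mem _ ((hPm ⟨z, hPd z hz⟩).2 hz), shom_spec S ⟨z, hPd z hz⟩⟩
  · intro z' hz'
    obtain ⟨z, hz, rfl⟩ := Finset.mem_image.1 hz'
    exact ⟨z, (hPm z).1 hz, shom_spec S z⟩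
  · rintro c ⟨x0, h0, x1, h1, x2, h2, x, hx, e1, e2, e3, e4, e5, rfl⟩
    obtain ⟨x0, rfl⟩ : ∃ y : dom S, (y : K) = x0 := ⟨⟨x0, hPd _ h0⟩, rfl⟩
    obtain ⟨x1, rfl⟩ : ∃ y : dom S, (y : K) = x1 := ⟨⟨x1, hPd _ h1⟩, rfl⟩
    obtain ⟨x2, rfl⟩ : ∃ y : dom S, (y : K) = x2 := ⟨⟨x2, hPd _ h2⟩, rfl⟩
    obtain ⟨x, rfl⟩ : ∃ y : dom S, (y : K) = x := ⟨⟨x, hPd _ hx⟩, rfl⟩
    rw [← hPm] at h0 h1 h2 hx
    have hn : ∀ a ∈ P₀, ∀ b ∈ P₀, (a : K) ≠ b → τ a ≠ τ b := fun a ha b hb hab h =>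
      hab (congrArg Subtype.val (hinj ha hb h))
    refine ⟨_, ⟨τ x0, Finset.mem_image_of_mem _ h0, τ x1, Finset.mem_image_of_mem _ h1,
      τ x2, Finset.mem_image_of_mem _ h2, τ x, Finset.mem_image_of_mem _ hx,
      hn _ h0 _ h1 e1, hn _ h0 _ h2 e2, hn _ h1 _ h2 e3, hn _ hx _ h2 e4, hn _ hx _ h0 e5, rfl⟩,
      hcrs x0 h0 x1 h1 x2 h2 x hx (fun h => e1 (by rw [h])) (fun h => e4 (by rw [h]))⟩
  · rintro c ⟨y0, h0', y1, h1', y2, h2', y, hy', e1, e2, e3, e4, e5, rfl⟩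
    obtain ⟨x0, h0, rfl⟩ := Finset.mem_image.1 h0'
    obtain ⟨x1, h1, rfl⟩ := Finset.mem_image.1 h1'
    obtain ⟨x2, h2, rfl⟩ := Finset.mem_image.1 h2'
    obtain ⟨x, hx, rfl⟩ := Finset.mem_image.1 hy'
    have hn : ∀ a b : dom S, τ a ≠ τ b → (a : K) ≠ b := fun a b hab h =>
      hab (by rw [Subtype.ext h])
    refine ⟨_, ⟨x0, (hPm _).1 h0, x1, (hPm _).1 h1, x2, (hPm _).1 h2, x, (hPm _).1 hx,
      hn _ _ e1, hn _ _ e2, hn _ _ e3, hn _ _ e4, hn _ _ e5, rfl⟩,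
      hcrs x0 h0 x1 h1 x2 h2 x hx (fun h => e1 (by rw [h])) (fun h => e4 (by rw [h]))⟩

end Pool.Agent.J6H55.JM
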